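import Mathlib
import Pool.Agent.Work.MP_787500_nt.GP.F04_Alt

/-!
A finite module over a local ring with a balanced form `p` such that `p y x = p x (h y)`: parity of the
dimension of the image of the elements fixed by `h` in the quotient modulo `l`.
-/

set_option autoImplicit false
set_option linter.unusedSectionVars false

namespace Pool.Agent.Work.MP_787500_nt.EV

open Pool.Agent.Work.MP_787500_nt.GP (A0 EvPow IsPow)

section count

variable {O : Type*} [CommRing O] {X : Type*} [AddCommGroup X] [Module O X] [Finite X]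

/-- the multiples of `l` -/
def lX (O : Type*) [CommRing O] (X : Type*) [AddCommGroup X] [Module O X] (l : O) : Submodule O X :=
  LinearMap.range (LinearMap.lsmul O X l)

theorem mem_lX {l : O} {x : X} : x ∈ lX O X l ↔ ∃ y, l • y = x := by
  rw [lX, LinearMap.mem_range]
  rfl

theorem card_ker_range {Y : Type*} [AddCommGroup Y] [Module O Y] (f : X →ₗ[O] Y) :
    Nat.card X = Nat.card (LinearMap.ker f) * Nat.card (LinearMap.range f) := by
  rw [Submodule.card_eq_card_quotient_mul_card (LinearMap.ker f),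
    Nat.card_congr f.quotKerEquivRange.toEquiv]

/-- the number of elements of `(X / A) / l` is the number of elements of `X / A` killed by `l` -/
theorem card_lquot (l : O) (A : Submodule O X) :
    Nat.card (A.comap (LinearMap.lsmul O X l)) = Nat.card (X ⧸ (A ⊔ lX O X l)) * Nat.card A := by
  let f : X →ₗ[O] X ⧸ A := A.mkQ.comp (LinearMap.lsmul O X l)
  have hk : LinearMap.ker f = A.comap (LinearMap.lsmul O X l) := by
    rw [LinearMap.ker_comp, Submodule.ker_mkQ]
  have hr : LinearMap.range f = (A ⊔ lX O X l).map A.mkQ := by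
    rw [LinearMap.range_comp, Submodule.map_sup, Submodule.mkQ_map_self, bot_sup_eq]
    rfl
  have e1 := card_ker_range f
  rw [hk] at e1
  have e2 := Submodule.card_eq_card_quotient_mul_card (A ⊔ lX O X l)
  -- `A ⊔ lX` maps onto its image with kernel `A`
  let g : ↥(A ⊔ lX O X l) →ₗ[O] X ⧸ A := A.mkQ.comp (A ⊔ lX O X l).subtype
  have e3 := card_ker_range g
  have hgr : LinearMap.range g = (A ⊔ lX O X l).map A.mkQ := by
    rw [LinearMap.range_comp, Submodule.range_subtype]
  have hgk : Nat.card (LinearMap.ker g) = Nat.card A := by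
    refine Nat.card_congr ⟨fun x => ⟨x.1.1, ?_⟩, fun x => ⟨⟨x.1, Submodule.mem_sup_left x.2⟩, ?_⟩,
      fun x => rfl, fun x => rfl⟩
    · have := x.2
      rw [LinearMap.mem_ker] at this
      exact (Submodule.Quotient.mk_eq_zero A).1 this
    · rw [LinearMap.mem_ker]
      exact (Submodule.Quotient.mk_eq_zero A).2 x.2
  rw [hgr, hgk] at e3
  rw [hr] at e1
  have hpos : 0 < Nat.card ((A ⊔ lX O X l).map A.mkQ) := by
    have : Finite (X ⧸ A) := Finite.of_surjective _ (Submodule.mkQ_surjective A)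
    exact Nat.card_pos
  refine Nat.eq_of_mul_eq_mul_right hpos ?_
  rw [← e1, e2, e3]
  ring

/-- the image of `A` in `X / J` -/
theorem card_image (J A : Submodule O X) :
    Nat.card (X ⧸ J) = Nat.card (X ⧸ (A ⊔ J)) * Nat.card (A.map J.mkQ) := by
  have hfin : Finite (X ⧸ J) := Finite.of_surjective _ (Submodule.mkQ_surjective J)
  have e1 := Submodule.card_eq_card_quotient_mul_card (A.map J.mkQ)
  rw [e1, mul_comm]
  congr 1
  have e2 : A.map J.mkQ = (A ⊔ J).map J.mkQ := by
    rw [Submodule.map_sup, Submodule.mkQ_map_self, sup_bot_eq]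
  rw [e2]
  exact Nat.card_congr (Submodule.quotientQuotientEquivQuotient J (A ⊔ J) le_sup_right).toEquiv

end count

variable {O : Type*} [CommRing O] [IsLocalRing O] [Finite (IsLocalRing.ResidueField O)]
  {X : Type*} [AddCommGroup X] [Module O X] [Finite X]

theorem core (l : O) (p : X →+ X →+ A0) (hbal : ∀ (a : O) x y, p (a • x) y = p x (a • y))
    (K : Submodule O X) (hK : ∀ y, y ∈ K ↔ ∀ x, p x y = 0) (h : X →ₗ[O] X)
    (hs : Function.Surjective h) (hsw : ∀ x y, p y x = p x (h y)) :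
    EvPow (Nat.card (IsLocalRing.ResidueField O))
      (Nat.card (X ⧸ (K ⊔ lX O X l)) *
        Nat.card ((K.comap (h - LinearMap.id)).map (K ⊔ lX O X l).mkQ)) := by
  set q := Nat.card (IsLocalRing.ResidueField O) with hq
  have hq2 : 2 ≤ q := GP.q_two_le
  set Xh : Submodule O X := K.comap (h - LinearMap.id) with hXh
  have memXh : ∀ x, x ∈ Xh ↔ h x - x ∈ K := fun x => Iff.rfl
  -- the radical on the left
  have hKl : ∀ x ∈ K, ∀ y, p x y = 0 := by
    intro x hx y
    obtain ⟨z, rfl⟩ := hs y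
    rw [← hsw]
    exact (hK x).1 hx z
  have hKh : K ≤ Xh := by
    intro x hx
    rw [memXh]
    refine K.sub_mem ?_ hx
    rw [hK]
    intro y
    rw [← hsw]
    exact hKl x hx y
  let β : X →+ X →+ A0 := p - p.flip
  have hβ : ∀ x y, β x y = p x y - p y x := fun x y => rfl
  have hβbal : ∀ (a : O) x y, β (a • x) y = β x (a • y) := by
    intro a x y
    rw [hβ, hβ, hbal, hbal]
  have hβalt : ∀ (a : O) x, β (a • x) x = 0 := by
    intro a x
    rw [hβ, hbal, sub_self]
  have hβrad : ∀ x, x ∈ Xh ↔ ∀ y, β x y = 0 := by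
    intro x
    rw [memXh, hK]
    refine forall_congr' fun y => ?_
    rw [hβ, hsw y x, ← map_sub]
  obtain ⟨m, hm⟩ := GP.alt_card β hβbal hβalt Xh hβrad
  let βl : X →+ X →+ A0 := β.comp (DistribSMul.toAddMonoidHom X l)
  have hβl : ∀ x y, βl x y = β (l • x) y := fun x y => rfl
  obtain ⟨m', hm'⟩ := GP.alt_card βl
    (by
      intro a x y
      rw [hβl, hβl, smul_comm l a x, hβbal])
    (by
      intro a x
      rw [hβl, smul_smul]
      exact hβalt _ x)
    (Xh.comap (LinearMap.lsmul O X l)) (by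
      intro x
      exact hβrad (l • x))
  rw [card_lquot l Xh, ← hq] at hm'
  rw [← hq] at hm
  have hposh : 0 < Nat.card Xh := Nat.card_pos
  set r := Nat.card (X ⧸ (Xh ⊔ lX O X l)) with hr
  have hfin : Finite (X ⧸ (Xh ⊔ lX O X l)) :=
    Finite.of_surjective _ (Submodule.mkQ_surjective _)
  have e1 : r * q ^ (2 * m') = q ^ (2 * m) := by
    refine Nat.eq_of_mul_eq_mul_right hposh ?_
    rw [← hm, hm']
    ring
  have hrE : EvPow q r := by
    refine GP.evPow_cancel hq2 (GP.card_pow (O := O) _) (b := q ^ (2 * m')) ⟨m', rfl⟩ ?_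
    exact ⟨m, e1⟩
  have e2 := card_image (K ⊔ lX O X l) Xh
  have e3 : Xh ⊔ (K ⊔ lX O X l) = Xh ⊔ lX O X l := by
    rw [← sup_assoc, sup_eq_left.2 hKh]
  rw [e3] at e2
  have hfin2 : Finite (X ⧸ (K ⊔ lX O X l)) := Finite.of_surjective _ (Submodule.mkQ_surjective _)
  rw [e2, mul_assoc, ← pow_two]
  exact GP.evPow_mul hrE (GP.evPow_sq (GP.card_pow (O := O) _))

/-- the number of elements of a quotient -/
noncomputable def cQ {O : Type*} [CommRing O] {X : Type*} [AddCommGroup X] [Module O X]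
    (J : Submodule O X) : ℕ := Nat.card (X ⧸ J)

/-- the number of elements of the image of `A` in the quotient by `J` -/
noncomputable def cI {O : Type*} [CommRing O] {X : Type*} [AddCommGroup X] [Module O X]
    (J A : Submodule O X) : ℕ := Nat.card (A.map J.mkQ)

theorem card_lquot' {O : Type*} [CommRing O] {X : Type*} [AddCommGroup X] [Module O X] [Finite X]
    (l : O) (A : Submodule O X) :
    Nat.card (A.comap (LinearMap.lsmul O X l)) = cQ (A ⊔ lX O X l) * Nat.card A := card_lquot l A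

theorem core' (l : O) (p : X →+ X →+ A0) (hbal : ∀ (a : O) x y, p (a • x) y = p x (a • y))
    (K : Submodule O X) (hK : ∀ y, y ∈ K ↔ ∀ x, p x y = 0) (h : X →ₗ[O] X)
    (hs : Function.Surjective h) (hsw : ∀ x y, p y x = p x (h y)) :
    EvPow (Nat.card (IsLocalRing.ResidueField O))
      (cQ (K ⊔ lX O X l) * cI (K ⊔ lX O X l) (K.comap (h - LinearMap.id))) :=
  core l p hbal K hK h hs hsw

/-- the number of elements of `Y`, when `{x | l x ∈ K}` is the sum of `K` and of the image of `Y` -/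
theorem cnt_abs {O : Type*} [CommRing O] {X : Type*} [AddCommGroup X] [Module O X] [Finite X]
    {Y : Type*} [AddCommGroup Y] [Finite Y] (l : O) (K : Submodule O X) (ι : Y →+ X)
    (h1 : ∀ k ∈ K, ∀ s, l • (k + ι s) ∈ K) (h2 : ∀ x, l • x ∈ K → ∃ k ∈ K, ∃ s, k + ι s = x) :
    Nat.card Y = cQ (K ⊔ lX O X l) * Nat.card {s : Y // ι s ∈ K} := by
  let φ : K × Y →+ X := (K.subtype.toAddMonoidHom).coprod ι
  have hφ : ∀ p, φ p = (p.1 : X) + ι p.2 := fun p => rfl
  have e1 : Nat.card (K × Y) = Nat.card φ.ker * Nat.card φ.range := by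
    rw [AddSubgroup.card_eq_card_quotient_mul_card_addSubgroup φ.ker, mul_comm,
      Nat.card_congr (QuotientAddGroup.quotientKerEquivRange φ).toEquiv]
  have e2 : Nat.card φ.range = Nat.card (K.comap (LinearMap.lsmul O X l)) := by
    refine Nat.card_congr (Equiv.setCongr ?_)
    ext x
    constructor
    · rintro ⟨p, rfl⟩
      exact h1 _ p.1.2 p.2
    · intro hx
      obtain ⟨k, hk, s, e⟩ := h2 x hx
      exact ⟨(⟨k, hk⟩, s), e⟩
  have e3 : Nat.card φ.ker = Nat.card {s : Y // ι s ∈ K} := by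
    have key : ∀ p : φ.ker, ι p.1.2 ∈ K := by
      intro p
      have h3 : (p.1.1 : X) + ι p.1.2 = 0 := p.2
      rw [← neg_eq_of_add_eq_zero_right h3]
      exact K.neg_mem p.1.1.2
    refine Nat.card_congr ⟨fun p => ⟨p.1.2, key p⟩,
      fun s => ⟨(⟨-ι s.1, K.neg_mem s.2⟩, s.1), ?_⟩, fun p => ?_, fun s => rfl⟩
    · show (-ι s.1 : X) + ι s.1 = 0
      rw [neg_add_cancel]
    · apply Subtype.ext
      refine Prod.ext (Subtype.ext ?_) rfl
      have h3 : (p.1.1 : X) + ι p.1.2 = 0 := p.2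
      exact (eq_neg_of_add_eq_zero_left h3).symm
  rw [Nat.card_prod, e2, e3, card_lquot' l K] at e1
  have hpos : 0 < Nat.card K := Nat.card_pos
  refine Nat.eq_of_mul_eq_mul_left hpos ?_
  rw [e1]
  ring

/-- an index computed by an additive relation -/
theorem rel_card {O : Type*} [CommRing O] {X : Type*} [AddCommGroup X] [Module O X]
    (J A : Submodule O X) {G : Type*} [AddCommGroup G] {Y Z : AddSubgroup G} (R : G → X → Prop)
    (hadd : ∀ {y y' x x'}, R y x → R y' x' → R (y + y') (x + x'))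
    (hneg : ∀ {y x}, R y x → R (-y) (-x)) (h1 : ∀ y ∈ Y, ∃ x, R y x)
    (h2 : ∀ {y x}, R y x → y ∈ Y) (h3 : ∀ {y x}, R y x → (y ∈ Z ↔ x ∈ J))
    (h4 : ∀ {y x}, R y x → x ∈ A ⊔ J) (h5 : ∀ x ∈ A, ∃ y, R y x) :
    Z.relIndex Y = cI J A := by
  choose f hf using fun y : Y => h1 y y.2
  have key : ∀ {y : Y} {x : X}, R y x → J.mkQ (f y) = J.mkQ x := by
    intro y x hx
    have e := hadd (hf y) (hneg hx)
    rw [add_neg_cancel] at e
    have e1 := (h3 e).1 Z.zero_mem
    rw [← sub_eq_zero, ← map_sub, Submodule.mkQ_apply, Submodule.Quotient.mk_eq_zero,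
      sub_eq_add_neg]
    exact e1
  let φ : Y →+ X ⧸ J := AddMonoidHom.mk' (fun y => J.mkQ (f y)) fun y y' => by
    rw [← map_add]
    exact key (hadd (hf y) (hf y'))
  have hφ : ∀ {y : Y} {x : X}, R y x → φ y = J.mkQ x := fun h => key h
  have hk : Z.addSubgroupOf Y = φ.ker := by
    ext y
    rw [AddSubgroup.mem_addSubgroupOf, AddMonoidHom.mem_ker, hφ (hf y), Submodule.mkQ_apply,
      Submodule.Quotient.mk_eq_zero]
    exact h3 (hf y)
  rw [AddSubgroup.relIndex, hk, AddSubgroup.index_ker, cI]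
  refine Nat.card_congr (Equiv.setCongr ?_)
  ext c
  constructor
  · rintro ⟨y, rfl⟩
    obtain ⟨a, ha, j, hj, e⟩ := Submodule.mem_sup.1 (h4 (hf y))
    refine ⟨a, ha, ?_⟩
    rw [hφ (hf y), ← e, map_add]
    have e1 : J.mkQ j = 0 := (Submodule.Quotient.mk_eq_zero J).2 hj
    rw [e1, add_zero]
  · rintro ⟨x, hx, rfl⟩
    obtain ⟨y, hy⟩ := h5 x hx
    exact ⟨⟨y, h2 hy⟩, hφ (y := ⟨y, h2 hy⟩) hy⟩

end Pool.Agent.Work.MP_787500_nt.EV
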