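import Mathlib
import Pool.Agent.Work.MP_787500_nt.QL.Defs
import Pool.Agent.Work.MP_787500_nt.KR.LDefs2
import Pool.Agent.Work.MP_787500_nt.KR.L08
import Pool.Agent.Work.MP_787500_nt.KR.L09

/-!
A tame place at which the Frobenius element exchanges the two parts of a polarized representation: definitions and
first properties.
-/

set_option autoImplicit false
set_option linter.unusedSectionVars false

namespace Pool.Agent.Work.MP_787500_nt.EV

open Matrix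
open Pool.Agent.Work.MP_787500_nt.GP (A0 IsAct EvPow IsPow OE MN actN actQ bN bil mq lft mq_lft mq_eq mq_add
  mq_sub mq_smul mq_eq_zero Wq Lat pr0 lamN mem_OE bil_add_left bil_add_right bil_sub_left bil_sub_right
  bil_smul_left bil_smul_right pr0_zero_of_norm actQ_mq bil_symm)
open Pool.Agent.Work.MP_787500_nt.KR (FSys Smooth Z1 LocRep ZV zV)
open Pool.Agent.Work.MP_787500_nt.PA (toE)
open Pool.Agent.Work.MP_787500_nt.QL (TameF)

variable {E : Type*} [NormedField E] [NormedAlgebra ℚ_[2] E] {n : ℕ} {P : Type*} [Group P]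

/-- A representation `r` of a tame group on `E ^ n` with a stable self-dual lattice `T`, a projector `pr` whose
kernel and image are isotropic, stable by the inertia group `I` and exchanged by the Frobenius element `σ`. -/
structure PolD (TP : FSys P) (χ a : P → ℤ_[2]) (σ τ : P) (q : ℕ) (I : Subgroup P) (l : OE E)
    (t : E →ₗ[ℚ_[2]] ℚ_[2]) (T : Submodule (OE E) (Fin n → E)) (Sm pr : Matrix (Fin n) (Fin n) E)
    (r r' : P → Matrix (Fin n) (Fin n) E) : Prop where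
  tame : TameF TP χ a σ τ q I
  lat : Lat Sm l t T
  rep : LocRep TP χ T Sm r r'
  rI : ∀ i ∈ I, r' i = r i
  rσ : r' σ = -r σ
  pp : ∀ x, pr *ᵥ (pr *ᵥ x) = pr *ᵥ x
  pT : ∀ x ∈ T, pr *ᵥ x ∈ T
  iso : ∀ x y, bil Sm (pr *ᵥ x) (pr *ᵥ y) = 0
  iso' : ∀ x y, bil Sm (x - pr *ᵥ x) (y - pr *ᵥ y) = 0
  pI : ∀ i ∈ I, ∀ x, pr *ᵥ (r i *ᵥ x) = r i *ᵥ (pr *ᵥ x)
  pσ : ∀ x, pr *ᵥ (r σ *ᵥ x) = r σ *ᵥ (x - pr *ᵥ x)
  ur : ∀ v, (∀ i ∈ I, r i *ᵥ v = v) → ∃ X, ZV TP r X ∧ (∀ i ∈ I, X i = 0) ∧ X σ = v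

/-- the vectors whose classes are fixed by `I` -/
def WI (I : Subgroup P) (T : Submodule (OE E) (Fin n → E)) (r : P → Matrix (Fin n) (Fin n) E) :
    Submodule (OE E) (Fin n → E) where
  carrier := {w | ∀ i ∈ I, r i *ᵥ w - w ∈ T}
  add_mem' := fun {v w} hv hw i hi => by
    rw [mulVec_add, add_sub_add_comm]
    exact T.add_mem (hv i hi) (hw i hi)
  zero_mem' := fun i _ => by
    rw [mulVec_zero, sub_zero]
    exact T.zero_mem
  smul_mem' := fun c v hv i hi => by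
    have e : r i *ᵥ (c • v) = c • (r i *ᵥ v) := mulVec_smul _ (c : E) v
    rw [e, ← smul_sub]
    exact T.smul_mem c (hv i hi)

theorem mem_WI {I : Subgroup P} {T : Submodule (OE E) (Fin n → E)} {r : P → Matrix (Fin n) (Fin n) E}
    {w : Fin n → E} : w ∈ WI I T r ↔ ∀ i ∈ I, r i *ᵥ w - w ∈ T := Iff.rfl

/-- the vectors fixed by `I` -/
def VO (I : Subgroup P) (r : P → Matrix (Fin n) (Fin n) E) : Submodule (OE E) (Fin n → E) where
  carrier := {w | ∀ i ∈ I, r i *ᵥ w = w}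
  add_mem' := fun {v w} hv hw i hi => by rw [mulVec_add, hv i hi, hw i hi]
  zero_mem' := fun i _ => mulVec_zero _
  smul_mem' := fun c v hv i hi => by
    have e : r i *ᵥ (c • v) = c • (r i *ᵥ v) := mulVec_smul _ (c : E) v
    rw [e, hv i hi]

theorem mem_VO {I : Subgroup P} {r : P → Matrix (Fin n) (Fin n) E} {w : Fin n → E} :
    w ∈ VO I r ↔ ∀ i ∈ I, r i *ᵥ w = w := Iff.rfl

theorem VO_smul {I : Subgroup P} {r : P → Matrix (Fin n) (Fin n) E} {w : Fin n → E} (c : E)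
    (hw : w ∈ VO I r) : c • w ∈ VO I r := fun i hi => by rw [mulVec_smul, hw i hi]

/-- the sum of the lattice and of the fixed vectors -/
def TV (I : Subgroup P) (T : Submodule (OE E) (Fin n → E)) (r : P → Matrix (Fin n) (Fin n) E) :
    Submodule (OE E) (Fin n → E) := T ⊔ VO I r

theorem mem_TV {I : Subgroup P} {T : Submodule (OE E) (Fin n → E)} {r : P → Matrix (Fin n) (Fin n) E}
    {w : Fin n → E} : w ∈ TV I T r ↔ ∃ u ∈ T, ∃ v ∈ VO I r, u + v = w := Submodule.mem_sup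

variable {TP : FSys P} {χ a : P → ℤ_[2]} {σ τ : P} {q : ℕ} {I : Subgroup P} {l : OE E}
  {t : E →ₗ[ℚ_[2]] ℚ_[2]} {T : Submodule (OE E) (Fin n → E)} {Sm pr : Matrix (Fin n) (Fin n) E}
  {r r' : P → Matrix (Fin n) (Fin n) E}

namespace PolD

variable (h : PolD TP χ a σ τ q I l t T Sm pr r r')

include h

theorem mul_vec (s u : P) (x : Fin n → E) : r (s * u) *ᵥ x = r s *ᵥ (r u *ᵥ x) := by
  rw [h.rep.mul, mulVec_mulVec]

theorem inv_vec (s : P) (x : Fin n → E) : r s *ᵥ (r s⁻¹ *ᵥ x) = x := by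
  rw [← h.mul_vec, mul_inv_cancel, h.rep.one, one_mulVec]

theorem inv_vec' (s : P) (x : Fin n → E) : r s⁻¹ *ᵥ (r s *ᵥ x) = x := by
  rw [← h.mul_vec, inv_mul_cancel, h.rep.one, one_mulVec]

theorem conj_vec (s i : P) (x : Fin n → E) : r i *ᵥ (r s *ᵥ x) = r s *ᵥ (r (s⁻¹ * i * s) *ᵥ x) := by
  rw [← h.mul_vec, ← h.mul_vec]
  congr 2
  group

theorem conj_mem (s : P) {i : P} (hi : i ∈ I) : s⁻¹ * i * s ∈ I := by
  have := h.tame.In.conj_mem i hi s⁻¹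
  rwa [inv_inv] at this

theorem WI_act (s : P) {w : Fin n → E} (hw : w ∈ WI I T r) : r s *ᵥ w ∈ WI I T r := by
  intro i hi
  rw [h.conj_vec, ← mulVec_sub]
  exact h.rep.st s _ (hw _ (h.conj_mem s hi))

theorem VO_act (s : P) {w : Fin n → E} (hw : w ∈ VO I r) : r s *ᵥ w ∈ VO I r := by
  intro i hi
  rw [h.conj_vec, hw _ (h.conj_mem s hi)]

theorem WI_pr {w : Fin n → E} (hw : w ∈ WI I T r) : pr *ᵥ w ∈ WI I T r := by
  intro i hi
  rw [← h.pI i hi, ← mulVec_sub]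
  exact h.pT _ (hw i hi)

theorem VO_pr {w : Fin n → E} (hw : w ∈ VO I r) : pr *ᵥ w ∈ VO I r := by
  intro i hi
  rw [← h.pI i hi, hw i hi]

theorem T_le : T ≤ WI I T r := fun x hx i _ => T.sub_mem (h.rep.st i x hx) hx

theorem VO_le : VO I r ≤ WI I T r := fun x hx i hi => by
  rw [hx i hi, sub_self]
  exact T.zero_mem

theorem TV_le : TV I T r ≤ WI I T r := sup_le h.T_le h.VO_le

theorem TV_act (s : P) {w : Fin n → E} (hw : w ∈ TV I T r) : r s *ᵥ w ∈ TV I T r := by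
  obtain ⟨u, hu, v, hv, rfl⟩ := mem_TV.1 hw
  rw [mulVec_add]
  exact mem_TV.2 ⟨_, h.rep.st s _ hu, _, h.VO_act s hv, rfl⟩

theorem TV_pr {w : Fin n → E} (hw : w ∈ TV I T r) : pr *ᵥ w ∈ TV I T r := by
  obtain ⟨u, hu, v, hv, rfl⟩ := mem_TV.1 hw
  rw [mulVec_add]
  exact mem_TV.2 ⟨_, h.pT _ hu, _, h.VO_pr hv, rfl⟩

/-- the projector and the inverse of the Frobenius element -/
theorem pσ' (x : Fin n → E) : pr *ᵥ (r σ⁻¹ *ᵥ x) = r σ⁻¹ *ᵥ (x - pr *ᵥ x) := by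
  have e := h.pσ (r σ⁻¹ *ᵥ x)
  rw [h.inv_vec, mulVec_sub, h.inv_vec] at e
  have e2 : r σ *ᵥ (pr *ᵥ (r σ⁻¹ *ᵥ x)) = x - pr *ᵥ x := by
    rw [e]
    abel
  rw [← e2, h.inv_vec']

/-- the projector commutes with the square of the Frobenius element -/
theorem pσσ (x : Fin n → E) : pr *ᵥ (r σ *ᵥ (r σ *ᵥ x)) = r σ *ᵥ (r σ *ᵥ (pr *ᵥ x)) := by
  rw [h.pσ, h.pσ, ← mulVec_sub, sub_sub_cancel]

theorem sym (x y : Fin n → E) : bil Sm x y = bil Sm y x := bil_symm h.lat.symm x y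

/-- the form on the image of the projector -/
theorem bil_pr (x y : Fin n → E) : bil Sm (pr *ᵥ x) y = bil Sm (pr *ᵥ x) (y - pr *ᵥ y) := by
  rw [bil_sub_right, h.iso, sub_zero]

theorem bil_pr' (x y : Fin n → E) : bil Sm (x - pr *ᵥ x) y = bil Sm (x - pr *ᵥ x) (pr *ᵥ y) := by
  have e := h.iso' x y
  rw [bil_sub_right, sub_eq_zero] at e
  exact e

/-- the form is invariant by the inertia group -/
theorem dI {i : P} (hi : i ∈ I) (x y : Fin n → E) :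
    bil Sm (r i *ᵥ x) (r i *ᵥ y) = bil Sm x y := by
  have e := h.rep.dual i x y
  rw [h.rI i hi, h.tame.Iχ i hi] at e
  rw [e]
  have h1 : toE E 1 = 1 := by simp [toE]
  rw [h1, one_mul]

/-- the form and the Frobenius element -/
theorem dσ (x y : Fin n → E) : bil Sm (r σ *ᵥ x) (r σ *ᵥ y) = -((q : E) * bil Sm x y) := by
  have e := h.rep.dual σ x y
  rw [h.rσ, h.tame.σχ, neg_mulVec] at e
  have h1 : toE E (q : ℤ_[2]) = (q : E) := by simp [toE]
  have h2 : bil Sm (r σ *ᵥ x) (-(r σ *ᵥ y)) = -bil Sm (r σ *ᵥ x) (r σ *ᵥ y) := by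
    rw [bil, bil, mulVec_neg, dotProduct_neg]
  rw [h1, h2] at e
  rw [← e, neg_neg]

theorem norm_T {x y : Fin n → E} (hx : x ∈ T) (hy : y ∈ T) : ‖bil Sm x y‖ ≤ 1 :=
  (h.lat.dual _).1 hx _ hy

theorem small {u z : Fin n → E} (hu : u ∈ WI I T r) (hz : z ∈ T) {i : P} (hi : i ∈ I) :
    ‖bil Sm u (r i *ᵥ z - z)‖ ≤ 1 := by
  have e : bil Sm u (r i *ᵥ z - z) = bil Sm (r i⁻¹ *ᵥ u - u) z := by
    rw [bil_sub_right, bil_sub_left, ← h.dI hi (r i⁻¹ *ᵥ u) z, h.inv_vec]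
  rw [e]
  exact h.norm_T (hu _ (I.inv_mem hi)) hz

theorem small' {u z : Fin n → E} (hu : u ∈ WI I T r) (hz : z ∈ T) {i : P} (hi : i ∈ I) :
    ‖bil Sm z (r i *ᵥ u - u)‖ ≤ 1 := h.norm_T hz (hu i hi)

theorem anti {u v : Fin n → E} (hu : u ∈ WI I T r) (hv : v ∈ WI I T r) {i : P} (hi : i ∈ I) :
    ‖bil Sm (r i *ᵥ u - u) v + bil Sm u (r i *ᵥ v - v)‖ ≤ 1 := by
  have e : bil Sm (r i *ᵥ u - u) v + bil Sm u (r i *ᵥ v - v) =
      -bil Sm (r i *ᵥ u - u) (r i *ᵥ v - v) := by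
    have e1 := h.dI hi u v
    rw [bil_sub_left, bil_sub_right, bil_sub_left, bil_sub_right, bil_sub_right, e1]
    ring
  rw [e, norm_neg]
  exact h.norm_T (hu i hi) (hv i hi)

end PolD

end Pool.Agent.Work.MP_787500_nt.EV
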