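import Mathlib
import Pool.Agent.Work.MP_787500_nt.KR.LD2
import Pool.Agent.Work.MP_787500_nt.GP.F01_Card

/-!
Duality for cocycles of a group with a normal subgroup of odd order and a cyclic quotient.
-/

set_option autoImplicit false
set_option linter.unusedSectionVars false

namespace Pool.Agent.Work.MP_787500_nt.EV

open Pool.Agent.Work.MP_787500_nt.GP (A0 IsAct EvPow IsPow)

theorem odd_inv {M M' : Type*} [AddCommGroup M] [AddCommGroup M'] [Finite M] [Finite M']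
    {B : M →+ M' →+ A0} (nd : ∀ m, (∀ m', B m m' = 0) → m = 0) (nd' : ∀ m', (∀ m, B m m' = 0) → m' = 0)
    {n : ℕ} (hn : Odd n) : ∃ a : ℕ, (∀ m : M, (a * n) • m = m) ∧ ∀ m : M', (a * n) • m = m := by
  obtain ⟨k, hk, -⟩ := GP.a0_killed (fun p : M × M' => B p.1 p.2)
  have h1 : ∀ m : M, (2 ^ (k + 1)) • m = 0 := by
    intro m
    refine nd _ fun m' => ?_
    rw [pow_succ, mul_comm, mul_smul, map_nsmul, map_nsmul, AddMonoidHom.nsmul_apply,
      AddMonoidHom.nsmul_apply, hk (m, m'), smul_zero]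
  have h2 : ∀ m : M', (2 ^ (k + 1)) • m = 0 := by
    intro m'
    refine nd' _ fun m => ?_
    rw [pow_succ, mul_comm, mul_smul, map_nsmul, map_nsmul, hk (m, m'), smul_zero]
  have hco : Nat.Coprime n (2 ^ (k + 1)) := (Nat.coprime_two_right.2 hn).pow_right (k + 1)
  obtain ⟨a, ha⟩ := Nat.exists_mul_mod_eq_one_of_coprime hco (Nat.one_lt_two_pow (by omega))
  have e : a * n = 1 + 2 ^ (k + 1) * (n * a / 2 ^ (k + 1)) := by
    have h3 := Nat.mod_add_div (n * a) (2 ^ (k + 1))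
    rw [ha.2] at h3
    rw [h3, mul_comm]
  refine ⟨a, fun m => ?_, fun m => ?_⟩
  · rw [e, add_smul, one_smul, mul_comm, mul_smul, h1, smul_zero, add_zero]
  · rw [e, add_smul, one_smul, mul_comm, mul_smul, h2, smul_zero, add_zero]

theorem act_nsmul {G : Type*} [Group G] {M : Type*} [AddCommGroup M] {ρ : G → M → M}
    (h : IsAct ρ) (g : G) (n : ℕ) (m : M) : ρ g (n • m) = n • ρ g m := by
  induction n with
  | zero => simp only [zero_smul, h.zero]
  | succ n ih => rw [succ_nsmul, h.add, ih, succ_nsmul]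

section

variable {H : Type*} [Group H] {M M' : Type*} [AddCommGroup M] [AddCommGroup M']
  {ρ : H → M → M} {ρ' : H → M' → M'} {B : M →+ M' →+ A0} {Q : Subgroup H} [Fintype Q]

/-- the average over `Q` -/
noncomputable def eQ (ρ : H → M → M) (Q : Subgroup H) [Fintype Q] (c : ℕ) (m : M) : M :=
  c • ∑ q : Q, ρ q m

theorem eQ_fix (hact : IsAct ρ) (c : ℕ) (m : M) : ∀ q ∈ Q, ρ q (eQ ρ Q c m) = eQ ρ Q c m := by
  intro q hq
  unfold eQ
  rw [act_nsmul hact, KR.IsAct.sum' hact]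
  congr 1
  rw [← Equiv.sum_comp (Equiv.mulLeft (⟨q, hq⟩ : Q)) (fun p => ρ p m)]
  refine Finset.sum_congr rfl fun p _ => ?_
  rw [← hact.mul]
  rfl

theorem eQ_of_fix (hact : IsAct ρ) {c : ℕ} (hc : ∀ m : M, (c * Fintype.card Q) • m = m) {m : M}
    (hm : ∀ q ∈ Q, ρ q m = m) : eQ ρ Q c m = m := by
  unfold eQ
  have e : ∑ q : Q, ρ q m = ∑ _q : Q, m := Finset.sum_congr rfl fun q _ => hm q q.2
  rw [e, Finset.sum_const, Finset.card_univ, ← mul_smul, hc]

theorem B_eQ (hact : IsAct ρ) (hact' : IsAct ρ') (eqv : ∀ g m m', B (ρ g m) (ρ' g m') = B m m') {c : ℕ}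
    (hc : ∀ m : M', (c * Fintype.card Q) • m = m) (m : M) {m' : M'} (hm : ∀ q ∈ Q, ρ' q m' = m') :
    B (eQ ρ Q c m) m' = B m m' := by
  unfold eQ
  rw [map_nsmul, map_sum, AddMonoidHom.nsmul_apply, AddMonoidHom.finset_sum_apply,
    Finset.sum_congr rfl (g := fun _ => B m m') fun q _ => ?_]
  · rw [Finset.sum_const, Finset.card_univ, ← mul_smul, ← map_nsmul, hc]
  · have h1 := eqv (q : H) m m'
    rwa [hm q q.2] at h1

theorem B_eQ' (hact : IsAct ρ) (hact' : IsAct ρ') (eqv : ∀ g m m', B (ρ g m) (ρ' g m') = B m m') {c : ℕ}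
    (hc : ∀ m : M, (c * Fintype.card Q) • m = m) {m : M} (m' : M') (hm : ∀ q ∈ Q, ρ q m = m) :
    B m (eQ ρ' Q c m') = B m m' := by
  unfold eQ
  rw [map_nsmul, map_sum, Finset.sum_congr rfl (g := fun _ => B m m') fun q _ => ?_]
  · rw [Finset.sum_const, Finset.card_univ, ← mul_smul, ← AddMonoidHom.nsmul_apply, ← map_nsmul, hc]
  · have h1 := eqv (q : H) m m'
    rwa [hm q q.2] at h1

/-- a cocycle on a group of odd order is a coboundary -/
theorem cobQ (hact : IsAct ρ) {c : ℕ} (hc : ∀ m : M, (c * Fintype.card Q) • m = m) {x : H → M}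
    (hx : ∀ g ∈ Q, ∀ k ∈ Q, x (g * k) = x g + ρ g (x k)) : ∃ m, ∀ q ∈ Q, x q = ρ q m - m := by
  refine ⟨-(c • ∑ q : Q, x q), fun p hp => ?_⟩
  have e1 : ∑ q : Q, x (p * q) = ∑ q : Q, x q := by
    rw [← Equiv.sum_comp (Equiv.mulLeft (⟨p, hp⟩ : Q)) (fun q => x q)]
    rfl
  have e2 : ∑ q : Q, x (p * q) = ∑ q : Q, (x p + ρ p (x q)) :=
    Finset.sum_congr rfl fun q _ => hx p hp q q.2
  rw [e2, Finset.sum_add_distrib, Finset.sum_const,
    Finset.card_univ, ← KR.IsAct.sum' hact] at e1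
  have e3 := congrArg (fun m : M => c • m) e1
  simp only [smul_add] at e3
  rw [smul_smul, hc] at e3
  rw [hact.neg, act_nsmul hact, ← e3]
  abel

/-- duality -/
theorem fin_dual [Finite M] [Finite M'] [hQn : Q.Normal] (hodd : Odd (Fintype.card Q)) {τ : H}
    (hgen : ∀ g, ∃ j : ℕ, ∃ q ∈ Q, g = τ ^ j * q)
    (hact : IsAct ρ) (hact' : IsAct ρ') (eqv : ∀ g m m', B (ρ g m) (ρ' g m') = B m m')
    (nd : ∀ m, (∀ m', B m m' = 0) → m = 0) (nd' : ∀ m', (∀ m, B m m' = 0) → m' = 0)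
    {f : H → M'} (hf : ∀ g k, f (g * k) = f g + ρ' g (f k))
    (h0 : ∀ m, (∀ g, ρ g m = m) → B m (f τ) = 0) : ∃ m', ∀ g, f g = ρ' g m' - m' := by
  obtain ⟨c, hc, hc'⟩ := odd_inv nd nd' hodd
  obtain ⟨m₁, hm₁⟩ := cobQ hact' hc' (x := f) fun g _ k _ => hf g k
  -- the modified cocycle
  let y : H → M' := fun g => f g - (ρ' g m₁ - m₁)
  have hy : ∀ g k, y (g * k) = y g + ρ' g (y k) := by
    intro g k
    show f (g * k) - (ρ' (g * k) m₁ - m₁) = f g - (ρ' g m₁ - m₁) + ρ' g (f k - (ρ' k m₁ - m₁))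
    rw [hf, hact'.mul, hact'.sub, hact'.sub]
    abel
  have hyQ : ∀ q ∈ Q, y q = 0 := by
    intro q hq
    show f q - (ρ' q m₁ - m₁) = 0
    rw [hm₁ q hq, sub_self]
  have hyfix : ∀ g, ∀ q ∈ Q, ρ' q (y g) = y g := by
    intro g q hq
    have e1 : y (q * g) = ρ' q (y g) := by rw [hy, hyQ q hq, zero_add]
    have e2 : q * g = g * (g⁻¹ * q * g) := by group
    have e3 : g⁻¹ * q * g ∈ Q := by
      have := hQn.conj_mem q hq g⁻¹
      rwa [inv_inv] at this
    rw [← e1, e2, hy, hyQ _ e3, hact'.zero, add_zero]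
  have hy0 : ∀ m, (∀ g, ρ g m = m) → B m (y τ) = 0 := by
    intro m hm
    show B m (f τ - (ρ' τ m₁ - m₁)) = 0
    have e1 : B m (ρ' τ m₁) = B m m₁ := by
      have := eqv τ m m₁
      rwa [hm] at this
    rw [map_sub, map_sub, h0 m hm, e1, sub_self, sub_zero]
  -- elements fixed by `Q` and `τ`
  have hfix : ∀ m, (∀ q ∈ Q, ρ q m = m) → ρ τ m = m → ∀ g, ρ g m = m := by
    intro m h1 h2 g
    obtain ⟨j, q, hq, rfl⟩ := hgen g
    rw [hact.mul, h1 q hq]
    induction j with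
    | zero => rw [pow_zero, hact.one]
    | succ j ih => rw [pow_succ, hact.mul, h2, ih]
  -- the subgroup `(τ - 1) M'^Q`
  let Λ : AddSubgroup M' :=
    { carrier := {z | ∃ m', (∀ q ∈ Q, ρ' q m' = m') ∧ z = ρ' τ m' - m'}
      add_mem' := by
        rintro _ _ ⟨a, ha, rfl⟩ ⟨b, hb, rfl⟩
        refine ⟨a + b, fun q hq => by rw [hact'.add, ha q hq, hb q hq], ?_⟩
        rw [hact'.add]
        abel
      zero_mem' := ⟨0, fun q _ => hact'.zero q, by rw [hact'.zero, sub_zero]⟩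
      neg_mem' := by
        rintro _ ⟨a, ha, rfl⟩
        refine ⟨-a, fun q hq => by rw [hact'.neg, ha q hq], ?_⟩
        rw [hact'.neg]
        abel }
  have hΛ : y τ ∈ Λ := by
    have hpp := GP.perp_perp B.flip Λ (fun a ha => by rw [nd' a ha]; exact Λ.zero_mem)
    rw [← hpp]
    intro m hm
    show B m (y τ) = 0
    have hm' : ∀ m', (∀ q ∈ Q, ρ' q m' = m') → B m (ρ' τ m' - m') = 0 := fun m' h1 =>
      hm _ ⟨m', h1, rfl⟩
    have e1 := eQ_fix (Q := Q) hact c m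
    have hn : ∀ m', (∀ q ∈ Q, ρ' q m' = m') → B (eQ ρ Q c m) m' = B m m' := fun m' h1 =>
      B_eQ hact hact' eqv hc' m h1
    -- conjugation
    have hconj : ∀ g, ∀ q ∈ Q, g⁻¹ * q * g ∈ Q := by
      intro g q hq
      have := hQn.conj_mem q hq g⁻¹
      rwa [inv_inv] at this
    have hst : ∀ (g : H) (z : M), (∀ q ∈ Q, ρ q z = z) → ∀ q ∈ Q, ρ q (ρ g z) = ρ g z := by
      intro g z hz q hq
      have e : q * g = g * (g⁻¹ * q * g) := by group
      rw [← hact.mul, e, hact.mul, hz _ (hconj g q hq)]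
    have hst' : ∀ (g : H) (z : M'), (∀ q ∈ Q, ρ' q z = z) → ∀ q ∈ Q, ρ' q (ρ' g z) = ρ' g z := by
      intro g z hz q hq
      have e : q * g = g * (g⁻¹ * q * g) := by group
      rw [← hact'.mul, e, hact'.mul, hz _ (hconj g q hq)]
    have e2 : ρ τ⁻¹ (eQ ρ Q c m) - eQ ρ Q c m = 0 := by
      refine nd _ fun m' => ?_
      have hfx : ∀ q ∈ Q, ρ q (ρ τ⁻¹ (eQ ρ Q c m) - eQ ρ Q c m) = ρ τ⁻¹ (eQ ρ Q c m) - eQ ρ Q c m := by
        intro q hq
        rw [hact.sub, hst τ⁻¹ _ e1 q hq, e1 q hq]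
      rw [← B_eQ' hact hact' eqv hc m' hfx]
      set w := eQ ρ' Q c m' with hw
      have hwf : ∀ q ∈ Q, ρ' q w = w := eQ_fix hact' c m'
      rw [map_sub, AddMonoidHom.sub_apply]
      have e3 : B (ρ τ⁻¹ (eQ ρ Q c m)) w = B (eQ ρ Q c m) (ρ' τ w) := by
        have := eqv τ⁻¹ (eQ ρ Q c m) (ρ' τ w)
        rwa [← hact'.mul, inv_mul_cancel, hact'.one] at this
      rw [e3, hn _ (hst' τ w hwf), hn _ hwf, ← map_sub]
      exact hm' w hwf
    have e4 : ρ τ (eQ ρ Q c m) = eQ ρ Q c m := by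
      rw [sub_eq_zero] at e2
      have := congrArg (ρ τ) e2
      rwa [← hact.mul, mul_inv_cancel, hact.one, eq_comm] at this
    have e5 := hy0 _ (hfix _ e1 e4)
    rwa [hn _ (hyfix τ)] at e5
  obtain ⟨m₂, hm₂, hm₂'⟩ := hΛ
  refine ⟨m₁ + m₂, fun g => ?_⟩
  have key : y g = ρ' g m₂ - m₂ := by
    obtain ⟨j, q, hq, rfl⟩ := hgen g
    rw [hy, hyQ q hq, hact'.zero, add_zero, hact'.mul, hm₂ q hq]
    induction j with
    | zero =>
      rw [pow_zero, hact'.one, sub_self]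
      exact hyQ 1 Q.one_mem
    | succ j ih =>
      rw [pow_succ, hy, ih, hm₂', hact'.mul, hact'.sub]
      abel
  have e : f g = y g + (ρ' g m₁ - m₁) := by
    show f g = f g - (ρ' g m₁ - m₁) + (ρ' g m₁ - m₁)
    rw [sub_add_cancel]
  rw [e, key, hact'.add]
  abel

end

end Pool.Agent.Work.MP_787500_nt.EV
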