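import Mathlib
import Pool.Agent.Work.MP_787500_nt.QL.Defs
import Pool.Agent.Work.MP_787500_nt.EV.FinG

/-!
Cocycles of the inertia group of a tame local group: duality, homomorphisms to the group of roots of unity.
-/

set_option autoImplicit false
set_option linter.unusedSectionVars false

namespace Pool.Agent.Work.MP_787500_nt.EV

open Pool.Agent.Work.MP_787500_nt.GP (A0 IsAct)
open Pool.Agent.Work.MP_787500_nt.KR (FSys Smooth)
open Pool.Agent.Work.MP_787500_nt.QL (TameF)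

theorem odd_nsmul {k : ℕ} (hk : Odd k) {x : A0} (h : k • x = 0) : x = 0 := by
  obtain ⟨m, hm, -⟩ := GP.a0_killed (fun _ : Unit => x)
  have h1 : addOrderOf x ∣ Nat.gcd k (2 ^ m) :=
    Nat.dvd_gcd (addOrderOf_dvd_of_nsmul_eq_zero h) (addOrderOf_dvd_of_nsmul_eq_zero (hm ()))
  have hco : Nat.gcd k (2 ^ m) = 1 := (Nat.coprime_two_right.2 hk).pow_right m
  rw [hco, Nat.dvd_one] at h1
  exact AddMonoid.addOrderOf_eq_one_iff.1 h1

variable {D : Type*} [Group D] {S : FSys D} {χ a : D → ℤ_[2]} {σ τ : D} {l : ℕ} {I : Subgroup D}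

theorem pow_P (h : TameF S χ a σ τ l I) {W : Subgroup D} {p : D} (hW : S.mem W) (hp : p ∈ h.P) :
    p ^ Nat.card (h.P ⧸ W.subgroupOf h.P) ∈ W := by
  have hn := S.normal hW
  have h1 : ((⟨p, hp⟩ : h.P) : h.P ⧸ W.subgroupOf h.P) ^ Nat.card (h.P ⧸ W.subgroupOf h.P) = 1 :=
    pow_card_eq_one'
  rw [← QuotientGroup.mk_pow, QuotientGroup.eq_one_iff, Subgroup.mem_subgroupOf] at h1
  exact h1

/-- an element that lies in `P` modulo `W` has odd order modulo `W` -/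
theorem pow_mem (h : TameF S χ a σ τ l I) {W : Subgroup D} (hW : S.mem W) {p g : D} (hp : p ∈ h.P)
    (hg : p⁻¹ * g ∈ W) : g ^ Nat.card (h.P ⧸ W.subgroupOf h.P) ∈ W := by
  have hn := S.normal hW
  have h3 : (p : D ⧸ W) = g := QuotientGroup.eq.2 hg
  have h4 := pow_P h hW hp
  rw [← QuotientGroup.eq_one_iff, QuotientGroup.mk_pow] at h4 ⊢
  rw [← h3, h4]

/-- a homomorphism on the inertia group is trivial on the elements of `P` -/
theorem hom_P (h : TameF S χ a σ τ l I) {W : Subgroup D} (hW : S.mem W) {c : D → A0}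
    (hc : ∀ i ∈ I, ∀ j ∈ I, c (i * j) = c i + c j) (hw : ∀ w ∈ W, w ∈ I → c w = 0) {p g : D}
    (hp : p ∈ h.P) (hg : g ∈ I) (hgP : p⁻¹ * g ∈ W) : c g = 0 := by
  have h1 : ∀ j : ℕ, c (g ^ j) = j • c g := by
    intro j
    induction j with
    | zero =>
      have := hc 1 I.one_mem 1 I.one_mem
      rw [mul_one, left_eq_add] at this
      rw [pow_zero, zero_smul, this]
    | succ j ih => rw [pow_succ, hc _ (I.pow_mem hg j) _ hg, ih, succ_nsmul]
  have h2 := hw _ (pow_mem h hW hp hgP) (I.pow_mem hg _)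
  rw [h1] at h2
  exact odd_nsmul (h.odd_quot hW) h2

/-- the value at the conjugate of the tame generator by the Frobenius element -/
theorem hom_conj (h : TameF S χ a σ τ l I) {W : Subgroup D} (hW : S.mem W) {c : D → A0}
    (hc : ∀ i ∈ I, ∀ j ∈ I, c (i * j) = c i + c j) (hw : ∀ w ∈ W, w ∈ I → c w = 0) :
    c (σ * τ * σ⁻¹) = l • c τ := by
  obtain ⟨p, hp, e⟩ := h.rel
  have h1 : σ * τ * σ⁻¹ = τ ^ l * (σ * p * σ⁻¹) := by
    rw [e]
    group
  have h2 : σ * τ * σ⁻¹ ∈ I := h.In.conj_mem τ h.τI σ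
  have h3 : τ ^ l ∈ I := I.pow_mem h.τI l
  have h4 : σ * p * σ⁻¹ ∈ I := by
    have : σ * p * σ⁻¹ = (τ ^ l)⁻¹ * (σ * τ * σ⁻¹) := by
      rw [h1]
      group
    rw [this]
    exact I.mul_mem (I.inv_mem h3) h2
  have h5 : σ * p * σ⁻¹ ∈ h.P := h.P_normal.conj_mem p hp σ
  rw [h1, hc _ h3 _ h4, hom_P h hW hc hw h5 h4 (by rw [inv_mul_cancel]; exact W.one_mem), add_zero]
  have h6 : ∀ j : ℕ, c (τ ^ j) = j • c τ := by
    intro j
    induction j with
    | zero =>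
      have := hc 1 I.one_mem 1 I.one_mem
      rw [mul_one, left_eq_add] at this
      rw [pow_zero, zero_smul, this]
    | succ j ih => rw [pow_succ, hc _ (I.pow_mem h.τI j) _ h.τI, ih, succ_nsmul]
  exact h6 l

/-- an element of the inertia group is a power of `τ` times an element of `P`, modulo `W` -/
theorem gen_I (h : TameF S χ a σ τ l I) {W : Subgroup D} (hW : S.mem W) {i : D} (hi : i ∈ I) :
    ∃ j : ℕ, ∃ p ∈ h.P, p⁻¹ * ((τ ^ j)⁻¹ * i) ∈ W := by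
  obtain ⟨n, hn⟩ := h.sep W hW
  obtain ⟨j, hj⟩ := GP.g1_nat (a i) n
  have h3 : τ ^ j * ((τ ^ j)⁻¹ * i) = i := mul_inv_cancel_left _ _
  have h4 : χ ((τ ^ j)⁻¹ * i) = 1 := by
    have e := congrArg χ h3
    rwa [h.char.mul, (h.tau_pow j).1, one_mul, h.Iχ i hi] at e
  have h5 : a ((τ ^ j)⁻¹ * i) = a i - j := by
    have e := congrArg a h3
    rw [h.coc, (h.tau_pow j).1, (h.tau_pow j).2, one_mul] at e
    linear_combination e
  obtain ⟨p, hp1, hp2, hp3⟩ := hn ((τ ^ j)⁻¹ * i) (by rw [h4, sub_self]; exact dvd_zero _)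
    (by rw [h5]; exact hj)
  exact ⟨j, p, ⟨hp1, hp2⟩, hp3⟩

/-- a cocycle of the inertia group orthogonal to the fixed elements is a coboundary -/
theorem dual_I (h : TameF S χ a σ τ l I) {M M' : Type*} [AddCommGroup M] [AddCommGroup M']
    [Finite M] [Finite M'] {ρ : D → M → M} {ρ' : D → M' → M'} {B : M →+ M' →+ A0} (hact : IsAct ρ)
    (hact' : IsAct ρ') (hs : Smooth S ρ) (hs' : Smooth S ρ')
    (eqv : ∀ i ∈ I, ∀ m m', B (ρ i m) (ρ' i m') = B m m')
    (nd : ∀ m, (∀ m', B m m' = 0) → m = 0) (nd' : ∀ m', (∀ m, B m m' = 0) → m' = 0)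
    {f : D → M'} (hf : ∀ i ∈ I, ∀ j ∈ I, f (i * j) = f i + ρ' i (f j))
    (hfs : ∃ W, S.mem W ∧ ∀ w ∈ W, w ∈ I → f w = 0)
    (h0 : ∀ m, (∀ i ∈ I, ρ i m = m) → B m (f τ) = 0) : ∃ m', ∀ i ∈ I, f i = ρ' i m' - m' := by
  obtain ⟨W1, hW1, hw1⟩ := hs
  obtain ⟨W2, hW2, hw2⟩ := hs'
  obtain ⟨W3, hW3, hw3⟩ := hfs
  obtain ⟨W, hW, hle⟩ : ∃ W, S.mem W ∧ W ≤ W1 ⊓ (W2 ⊓ W3) := ⟨_, S.inf hW1 (S.inf hW2 hW3), le_rfl⟩
  have hn := S.normal hW
  have hfin : Finite (D ⧸ W) := Nat.finite_of_card_ne_zero (S.index hW)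
  let π : D →* D ⧸ W := QuotientGroup.mk' W
  have hπ : ∀ {i j : D}, π i = π j → i⁻¹ * j ∈ W := fun {i j} e => QuotientGroup.eq.1 e
  let H : Subgroup (D ⧸ W) := I.map π
  choose r hrI hr using fun g : H => g.2
  have e1 : ∀ i j, π i = π j → ∀ m, ρ i m = ρ j m := by
    intro i j e m
    have h1 : j = i * (i⁻¹ * j) := by group
    rw [h1, hact.mul, hw1 _ (hle (hπ e)).1]
  have e2 : ∀ i j, π i = π j → ∀ m, ρ' i m = ρ' j m := by
    intro i j e m
    have h1 : j = i * (i⁻¹ * j) := by group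
    rw [h1, hact'.mul, hw2 _ (hle (hπ e)).2.1]
  have e3 : ∀ i ∈ I, ∀ j ∈ I, π i = π j → f i = f j := by
    intro i hi j hj e
    have h1 : j = i * (i⁻¹ * j) := by group
    rw [h1, hf _ hi _ (I.mul_mem (I.inv_mem hi) hj),
      hw3 _ (hle (hπ e)).2.2 (I.mul_mem (I.inv_mem hi) hj), hact'.zero, add_zero]
  let R : H → M → M := fun g => ρ (r g)
  let R' : H → M' → M' := fun g => ρ' (r g)
  let F : H → M' := fun g => f (r g)
  have hone : π (r 1) = π 1 := by rw [hr, map_one]; rfl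
  have hmul : ∀ g k, π (r (g * k)) = π (r g * r k) := fun g k => by rw [hr, map_mul, hr, hr]; rfl
  have hR : IsAct R :=
    ⟨fun m => by rw [show R 1 m = ρ (r 1) m from rfl, e1 _ _ hone, hact.one],
      fun g k m => by rw [show R (g * k) m = ρ (r (g * k)) m from rfl, e1 _ _ (hmul g k), hact.mul],
      fun g m m' => hact.add _ _ _⟩
  have hR' : IsAct R' :=
    ⟨fun m => by rw [show R' 1 m = ρ' (r 1) m from rfl, e2 _ _ hone, hact'.one],
      fun g k m => by rw [show R' (g * k) m = ρ' (r (g * k)) m from rfl, e2 _ _ (hmul g k), hact'.mul],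
      fun g m m' => hact'.add _ _ _⟩
  have hF : ∀ g k, F (g * k) = F g + R' g (F k) := fun g k => by
    rw [show F (g * k) = f (r (g * k)) from rfl, e3 _ (hrI _) _ (I.mul_mem (hrI g) (hrI k)) (hmul g k),
      hf _ (hrI g) _ (hrI k)]
  have hPn := h.P_normal
  have hPm : (h.P.map π).Normal := hPn.map π (QuotientGroup.mk'_surjective W)
  let Q : Subgroup H := (h.P.map π).subgroupOf H
  have hQn : Q.Normal := inferInstanceAs ((h.P.map π).subgroupOf H).Normal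
  have hQf : Fintype Q := Fintype.ofFinite Q
  have hodd : Odd (Fintype.card Q) := by
    rw [← Nat.not_even_iff_odd]
    intro hev
    obtain ⟨x, hx⟩ := exists_prime_orderOf_dvd_card (G := Q) 2 hev.two_dvd
    obtain ⟨p, hp, hpx⟩ := x.2
    have h1 := pow_P h hW hp
    have h2 : x ^ Nat.card (h.P ⧸ W.subgroupOf h.P) = 1 := by
      apply Subtype.ext
      apply Subtype.ext
      show (((x : H) : D ⧸ W)) ^ _ = 1
      have hpx' : π p = ((x : H) : D ⧸ W) := hpx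
      rw [← hpx', ← map_pow]
      exact (QuotientGroup.eq_one_iff _).2 h1
    have h3 := orderOf_dvd_of_pow_eq_one h2
    rw [hx] at h3
    have h4 := h.odd_quot hW
    rw [← Nat.not_even_iff_odd, even_iff_two_dvd] at h4
    exact h4 h3
  have hτH : π τ ∈ H := ⟨τ, h.τI, rfl⟩
  have hgen : ∀ g : H, ∃ j : ℕ, ∃ x ∈ Q, g = (⟨π τ, hτH⟩ : H) ^ j * x := by
    intro g
    obtain ⟨j, p, hp, hj⟩ := gen_I h hW (hrI g)
    have h1 : (τ ^ j)⁻¹ * r g ∈ I := I.mul_mem (I.inv_mem (I.pow_mem h.τI j)) (hrI g)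
    refine ⟨j, ⟨π ((τ ^ j)⁻¹ * r g), _, h1, rfl⟩, ?_, ?_⟩
    · show π ((τ ^ j)⁻¹ * r g) ∈ h.P.map π
      exact ⟨p, hp, QuotientGroup.eq.2 hj⟩
    · apply Subtype.ext
      show (g : D ⧸ W) = (π τ) ^ j * π ((τ ^ j)⁻¹ * r g)
      rw [← map_pow, ← map_mul, mul_inv_cancel_left, hr]
  obtain ⟨m', hm'⟩ := fin_dual (Q := Q) (B := B) hodd hgen hR hR' (fun g m m' => eqv _ (hrI g) m m') nd nd' hF (by
    intro m hm
    have h1 : π (r ⟨π τ, hτH⟩) = π τ := hr _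
    show B m (f (r ⟨π τ, hτH⟩)) = 0
    rw [e3 _ (hrI _) _ h.τI h1]
    refine h0 m fun i hi => ?_
    have h2 : π (r ⟨π i, ⟨i, hi, rfl⟩⟩) = π i := hr _
    rw [← e1 _ _ h2]
    exact hm _)
  refine ⟨m', fun i hi => ?_⟩
  have h2 : π (r ⟨π i, ⟨i, hi, rfl⟩⟩) = π i := hr _
  rw [← e3 _ (hrI _) _ hi h2, ← e2 _ _ h2]
  exact hm' _

end Pool.Agent.Work.MP_787500_nt.EV
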