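import Mathlib
import Pool.Agent.Work.MP_787500_nt.EV.Defs
import Pool.Agent.Work.MP_787500_nt.EV.Dual
import Pool.Agent.Work.MP_787500_nt.GP.L08_MN

/-!
The pairing on the elements of level `N` fixed by the inertia group: values, exchange of the two variables, radical.
-/

set_option autoImplicit false
set_option linter.unusedSectionVars false

namespace Pool.Agent.Work.MP_787500_nt.EV

open Matrix
open Pool.Agent.Work.MP_787500_nt.GP (A0 IsAct EvPow IsPow OE MN actN actQ bN bil mq lft mq_lft mq_eq mq_add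
  mq_sub mq_smul mq_eq_zero Wq Lat pr0 lamN mem_OE bil_add_left bil_add_right bil_sub_left bil_sub_right
  bil_smul_left bil_smul_right pr0_zero_of_norm actQ_mq bil_symm bN_val coe_actN)
open Pool.Agent.Work.MP_787500_nt.KR (FSys Smooth Z1 LocRep ZV zV)
open Pool.Agent.Work.MP_787500_nt.PA (toE)
open Pool.Agent.Work.MP_787500_nt.QL (TameF)

variable {E : Type*} [NormedField E] [NormedAlgebra ℚ_[2] E] {n : ℕ} {P : Type*} [Group P]
  {TP : FSys P} {χ a : P → ℤ_[2]} {σ τ : P} {q : ℕ} {I : Subgroup P} {l : OE E}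
  {t : E →ₗ[ℚ_[2]] ℚ_[2]} {T : Submodule (OE E) (Fin n → E)} {Sm pr : Matrix (Fin n) (Fin n) E}
  {r r' : P → Matrix (Fin n) (Fin n) E}

theorem pr0_eq_of {t : E →ₗ[ℚ_[2]] ℚ_[2]} {b : Matrix (Fin n) (Fin n) E} (h : Lat b l t T) {x y : E}
    (hxy : ‖x - y‖ ≤ 1) : pr0 (t x) = pr0 (t y) := by
  rw [← sub_eq_zero, ← map_sub, ← map_sub]
  exact pr0_zero_of_norm (h.tint _ hxy)

/-- the elements of level `N` fixed by `I` -/
def XN (h : PolD TP χ a σ τ q I l t T Sm pr r r') (N : ℕ) : Submodule (OE E) (MN T l N) where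
  carrier := {m | lft (m : Wq T) ∈ WI I T r}
  add_mem' := fun {m m'} hm hm' => by
    have e : lft ((m + m' : MN T l N) : Wq T) - (lft (m : Wq T) + lft (m' : Wq T)) ∈ T := by
      rw [← mq_eq, mq_lft, mq_add, mq_lft, mq_lft]
      rfl
    have e1 := (WI I T r).add_mem (h.T_le e) ((WI I T r).add_mem hm hm')
    rwa [sub_add_cancel] at e1
  zero_mem' := by
    have e : lft ((0 : MN T l N) : Wq T) ∈ T := by
      rw [← mq_eq_zero, mq_lft]
      rfl
    exact h.T_le e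
  smul_mem' := fun c m hm => by
    have e : lft ((c • m : MN T l N) : Wq T) - (c : E) • lft (m : Wq T) ∈ T := by
      rw [← mq_eq, mq_lft, mq_smul, mq_lft]
      rfl
    have e1 := (WI I T r).add_mem (h.T_le e) ((WI I T r).smul_mem c hm)
    rwa [show c • lft (m : Wq T) = (c : E) • lft (m : Wq T) from rfl, sub_add_cancel] at e1

theorem mem_XN {h : PolD TP χ a σ τ q I l t T Sm pr r r'} {N : ℕ} {m : MN T l N} {x : Fin n → E}
    (hx : mq T x = m) : m ∈ XN h N ↔ x ∈ WI I T r := by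
  have e : lft (m : Wq T) - x ∈ T := by rw [← mq_eq, mq_lft, hx]
  constructor
  · intro hm
    have e1 := (WI I T r).sub_mem hm (h.T_le e)
    rwa [sub_sub_cancel] at e1
  · intro hm
    have e1 := (WI I T r).add_mem (h.T_le e) hm
    rwa [sub_add_cancel] at e1

theorem mem_XN' {h : PolD TP χ a σ τ q I l t T Sm pr r r'} {N : ℕ} {m : MN T l N} :
    m ∈ XN h N ↔ ∀ i ∈ I, actN l N r h.rep.st i m = m := by
  rw [mem_XN (mq_lft (m : Wq T)), mem_WI]
  refine forall_congr' fun i => forall_congr' fun hi => ?_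
  rw [← Subtype.coe_inj, coe_actN]
  have e : actQ T (r i) m = mq T (r i *ᵥ lft (m : Wq T)) := rfl
  rw [e]
  conv_rhs => rw [← mq_lft (m : Wq T)]
  rw [mq_eq]
  rw [mq_lft]

/-- the type of the elements of level `N` fixed by `I` -/
def XT (h : PolD TP χ a σ τ q I l t T Sm pr r r') (N : ℕ) : Type _ := ↥(XN h N)

noncomputable instance (h : PolD TP χ a σ τ q I l t T Sm pr r r') (N : ℕ) : AddCommGroup (XT h N) :=
  inferInstanceAs (AddCommGroup ↥(XN h N))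

noncomputable instance (h : PolD TP χ a σ τ q I l t T Sm pr r r') (N : ℕ) : Module (OE E) (XT h N) :=
  inferInstanceAs (Module (OE E) ↥(XN h N))

/-- the underlying element of level `N` -/
def XT.v {h : PolD TP χ a σ τ q I l t T Sm pr r r'} {N : ℕ} (x : XT h N) : MN T l N := x.1

instance (h : PolD TP χ a σ τ q I l t T Sm pr r r') (N : ℕ) : CoeOut (XT h N) (MN T l N) := ⟨XT.v⟩

theorem XT.mem {h : PolD TP χ a σ τ q I l t T Sm pr r r'} {N : ℕ} (x : XT h N) :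
    lft ((x : MN T l N) : Wq T) ∈ WI I T r := x.2

/-- an element fixed by `I` -/
def XT.mk {h : PolD TP χ a σ τ q I l t T Sm pr r r'} {N : ℕ} (m : MN T l N) (hm : m ∈ XN h N) :
    XT h N := ⟨m, hm⟩

theorem XT.ext {h : PolD TP χ a σ τ q I l t T Sm pr r r'} {N : ℕ} {x y : XT h N}
    (e : ((x : MN T l N) : Wq T) = ((y : MN T l N) : Wq T)) : x = y := Subtype.ext (Subtype.ext e)

theorem XT.coe_add {h : PolD TP χ a σ τ q I l t T Sm pr r r'} {N : ℕ} (x y : XT h N) :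
    (((x + y : XT h N) : MN T l N) : Wq T) = ((x : MN T l N) : Wq T) + ((y : MN T l N) : Wq T) := rfl

theorem XT.coe_sub {h : PolD TP χ a σ τ q I l t T Sm pr r r'} {N : ℕ} (x y : XT h N) :
    (((x - y : XT h N) : MN T l N) : Wq T) = ((x : MN T l N) : Wq T) - ((y : MN T l N) : Wq T) := rfl

theorem XT.coe_neg {h : PolD TP χ a σ τ q I l t T Sm pr r r'} {N : ℕ} (x : XT h N) :
    (((-x : XT h N) : MN T l N) : Wq T) = -((x : MN T l N) : Wq T) := rfl

theorem XT.coe_smul {h : PolD TP χ a σ τ q I l t T Sm pr r r'} {N : ℕ} (c : OE E) (x : XT h N) :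
    (((c • x : XT h N) : MN T l N) : Wq T) = c • ((x : MN T l N) : Wq T) := rfl

theorem XT.coe_zero {h : PolD TP χ a σ τ q I l t T Sm pr r r'} {N : ℕ} :
    (((0 : XT h N) : MN T l N) : Wq T) = 0 := rfl

theorem XT.coe_mk {h : PolD TP χ a σ τ q I l t T Sm pr r r'} {N : ℕ} (m : MN T l N) (hm : m ∈ XN h N) :
    (((XT.mk m hm : XT h N) : MN T l N) : Wq T) = (m : Wq T) := rfl

/-- an element of `WI` with `l ^ N x ∈ T` defines an element of level `N` fixed by `I` -/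
theorem XT.ex (h : PolD TP χ a σ τ q I l t T Sm pr r r') {N : ℕ} {x : Fin n → E}
    (hx : x ∈ WI I T r) (hx1 : (l : E) ^ N • x ∈ T) :
    ∃ m : XT h N, mq T x = ((m : MN T l N) : Wq T) := by
  have h1 : l ^ N • mq T x = 0 := by
    rw [← mq_smul, mq_eq_zero, Subring.coe_pow]
    exact hx1
  let y : MN T l N := ⟨mq T x, (Submodule.mem_torsionBy_iff _ _).2 h1⟩
  have hy : mq T x = (y : Wq T) := rfl
  exact ⟨XT.mk y ((mem_XN hy).2 hx), hy⟩

/-- the form -/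
def FF (σ τ : P) (Sm pr : Matrix (Fin n) (Fin n) E) (r : P → Matrix (Fin n) (Fin n) E)
    (x y : Fin n → E) : E := bil Sm (pr *ᵥ x) (r τ *ᵥ (r σ⁻¹ *ᵥ y) - r σ⁻¹ *ᵥ y)

theorem FF_add_right (x y y' : Fin n → E) :
    FF σ τ Sm pr r x (y + y') = FF σ τ Sm pr r x y + FF σ τ Sm pr r x y' := by
  unfold FF
  rw [← bil_add_right]
  congr 1
  simp only [mulVec_add]
  abel

theorem FF_add_left (x x' y : Fin n → E) :
    FF σ τ Sm pr r (x + x') y = FF σ τ Sm pr r x y + FF σ τ Sm pr r x' y := by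
  unfold FF
  rw [← bil_add_left, mulVec_add]

theorem FF_smul_right (c : E) (x y : Fin n → E) :
    FF σ τ Sm pr r x (c • y) = c * FF σ τ Sm pr r x y := by
  unfold FF
  rw [← bil_smul_right]
  congr 1
  simp only [mulVec_smul, smul_sub]

theorem FF_smul_left (c : E) (x y : Fin n → E) :
    FF σ τ Sm pr r (c • x) y = c * FF σ τ Sm pr r x y := by
  unfold FF
  rw [← bil_smul_left, mulVec_smul]

namespace PolD

variable (h : PolD TP χ a σ τ q I l t T Sm pr r r')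

include h

theorem FF_small {x y : Fin n → E} (hx : x ∈ WI I T r) (hy : y ∈ T) : ‖FF σ τ Sm pr r x y‖ ≤ 1 :=
  h.small (h.WI_pr hx) (h.rep.st _ _ hy) h.tame.τI

theorem FF_small' {x y : Fin n → E} (hx : x ∈ T) (hy : y ∈ WI I T r) : ‖FF σ τ Sm pr r x y‖ ≤ 1 :=
  h.small' (h.WI_act _ hy) (h.pT _ hx) h.tame.τI

theorem FF_val {x x' y y' : Fin n → E} (hx : x - x' ∈ T) (hy : y - y' ∈ T) (hx1 : x ∈ WI I T r)
    (hy1 : y' ∈ WI I T r) : pr0 (t (FF σ τ Sm pr r x y)) = pr0 (t (FF σ τ Sm pr r x' y')) := by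
  apply pr0_eq_of h.lat
  have e : FF σ τ Sm pr r x y - FF σ τ Sm pr r x' y' =
      FF σ τ Sm pr r x (y - y') + FF σ τ Sm pr r (x - x') y' := by
    have e1 : FF σ τ Sm pr r x y = FF σ τ Sm pr r x (y - y') + FF σ τ Sm pr r x y' := by
      rw [← FF_add_right, sub_add_cancel]
    have e2 : FF σ τ Sm pr r x y' = FF σ τ Sm pr r (x - x') y' + FF σ τ Sm pr r x' y' := by
      rw [← FF_add_left, sub_add_cancel]
    rw [e1, e2]
    ring
  rw [e]
  have := Gn.ultra 2 E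
  exact (IsUltrametricDist.norm_add_le_max _ _).trans
    (max_le (h.FF_small hx1 hy) (h.FF_small' hx hy1))

end PolD

/-- the pairing -/
noncomputable def pN (h : PolD TP χ a σ τ q I l t T Sm pr r r') (N : ℕ) :
    XT h N →+ XT h N →+ A0 :=
  AddMonoidHom.mk' (fun x => AddMonoidHom.mk'
    (fun y => pr0 (t (FF σ τ Sm pr r (lft ((x : MN T l N) : Wq T)) (lft ((y : MN T l N) : Wq T)))))
    (fun y y' => by
      have e : pr0 (t (FF σ τ Sm pr r (lft ((x : MN T l N) : Wq T))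
          (lft (((y + y' : XT h N) : MN T l N) : Wq T)))) =
          pr0 (t (FF σ τ Sm pr r (lft ((x : MN T l N) : Wq T))
            (lft ((y : MN T l N) : Wq T) + lft ((y' : MN T l N) : Wq T)))) := by
        refine h.FF_val (by rw [sub_self]; exact T.zero_mem) ?_ x.mem
          ((WI I T r).add_mem y.mem y'.mem)
        rw [← mq_eq, mq_lft, mq_add, mq_lft, mq_lft]
        rfl
      rw [e, FF_add_right, map_add, map_add]))
    (fun x x' => by
      ext y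
      show pr0 (t (FF σ τ Sm pr r (lft (((x + x' : XT h N) : MN T l N) : Wq T))
          (lft ((y : MN T l N) : Wq T)))) =
        pr0 (t (FF σ τ Sm pr r (lft ((x : MN T l N) : Wq T)) (lft ((y : MN T l N) : Wq T)))) +
        pr0 (t (FF σ τ Sm pr r (lft ((x' : MN T l N) : Wq T)) (lft ((y : MN T l N) : Wq T))))
      have e : pr0 (t (FF σ τ Sm pr r (lft (((x + x' : XT h N) : MN T l N) : Wq T))
          (lft ((y : MN T l N) : Wq T)))) =
          pr0 (t (FF σ τ Sm pr r (lft ((x : MN T l N) : Wq T) + lft ((x' : MN T l N) : Wq T))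
            (lft ((y : MN T l N) : Wq T)))) := by
        refine h.FF_val ?_ (by rw [sub_self]; exact T.zero_mem) (x + x').mem y.mem
        rw [← mq_eq, mq_lft, mq_add, mq_lft, mq_lft]
        rfl
      rw [e, FF_add_left, map_add, map_add])

theorem pN_val (h : PolD TP χ a σ τ q I l t T Sm pr r r') (N : ℕ) (x y : XT h N) {x' y' : Fin n → E}
    (hx : mq T x' = (x : MN T l N)) (hy : mq T y' = (y : MN T l N)) :
    pN h N x y = pr0 (t (FF σ τ Sm pr r x' y')) := by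
  refine h.FF_val ?_ ?_ x.mem ((mem_XN hy).1 y.2)
  · rw [← mq_eq, mq_lft, hx]
  · rw [← mq_eq, mq_lft, hy]

theorem pN_bal (h : PolD TP χ a σ τ q I l t T Sm pr r r') (N : ℕ) (c : OE E) (x y : XT h N) :
    pN h N (c • x) y = pN h N x (c • y) := by
  rw [pN_val h N (c • x) y (x' := (c : E) • lft ((x : MN T l N) : Wq T)) _ (mq_lft _),
    pN_val h N x (c • y) (y' := (c : E) • lft ((y : MN T l N) : Wq T)) (mq_lft _) _, FF_smul_left,
    FF_smul_right]
  · rw [mq_smul, mq_lft]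
    rfl
  · rw [mq_smul, mq_lft]
    rfl

namespace PolD

variable (h : PolD TP χ a σ τ q I l t T Sm pr r r')

include h

/-- an element close to the identity moves a vector very little -/
theorem near (v u : Fin n → E) : ∃ W, TP.mem W ∧ ∀ w ∈ W, ‖bil Sm u (r w *ᵥ v - v)‖ ≤ 1 := by
  obtain ⟨C, hC0, hC⟩ := Gn.pair_bound Sm
  obtain ⟨W, hW, h1⟩ := h.rep.sm (1 / (C * ‖u‖ * ‖v‖ + 1)) (by positivity)
  refine ⟨W, hW, fun w hw => ?_⟩
  refine (hC _ _).trans ?_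
  have h2 := h1 w hw v
  have h3 : C * ‖u‖ * ‖r w *ᵥ v - v‖ ≤ C * ‖u‖ * (1 / (C * ‖u‖ * ‖v‖ + 1) * ‖v‖) :=
    mul_le_mul_of_nonneg_left h2 (by positivity)
  refine h3.trans ?_
  have h4 : C * ‖u‖ * (1 / (C * ‖u‖ * ‖v‖ + 1) * ‖v‖) =
      (C * ‖u‖ * ‖v‖) / (C * ‖u‖ * ‖v‖ + 1) := by ring
  rw [h4, div_le_one (by positivity)]
  linarith

theorem near' (v : Fin n → E) (c : E) : ∃ W, TP.mem W ∧ ∀ w ∈ W, c • (r w *ᵥ v - v) ∈ T := by
  obtain ⟨r₀, hr₀, hT⟩ := h.lat.opn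
  obtain ⟨W, hW, h1⟩ := h.rep.sm (r₀ / (‖c‖ * ‖v‖ + 1)) (by positivity)
  refine ⟨W, hW, fun w hw => hT _ ?_⟩
  rw [norm_smul]
  have h2 := h1 w hw v
  have h3 : ‖c‖ * ‖r w *ᵥ v - v‖ ≤ ‖c‖ * (r₀ / (‖c‖ * ‖v‖ + 1) * ‖v‖) :=
    mul_le_mul_of_nonneg_left h2 (norm_nonneg _)
  refine lt_of_le_of_lt h3 ?_
  have h4 : ‖c‖ * (r₀ / (‖c‖ * ‖v‖ + 1) * ‖v‖) = r₀ * ((‖c‖ * ‖v‖) / (‖c‖ * ‖v‖ + 1)) := by ring
  rw [h4]
  refine mul_lt_of_lt_one_right hr₀ ?_
  rw [div_lt_one (by positivity)]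
  linarith

/-- the homomorphism on the inertia group attached to two vectors -/
theorem c_hom {u v : Fin n → E} (hu : u ∈ WI I T r) (hv : v ∈ WI I T r) :
    ∀ i ∈ I, ∀ j ∈ I, pr0 (t (bil Sm u (r (i * j) *ᵥ v - v))) =
      pr0 (t (bil Sm u (r i *ᵥ v - v))) + pr0 (t (bil Sm u (r j *ᵥ v - v))) := by
  intro i hi j hj
  rw [← map_add, ← map_add]
  apply pr0_eq_of h.lat
  have e : bil Sm u (r (i * j) *ᵥ v - v) - (bil Sm u (r i *ᵥ v - v) + bil Sm u (r j *ᵥ v - v)) =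
      bil Sm u (r i *ᵥ (r j *ᵥ v - v) - (r j *ᵥ v - v)) := by
    rw [h.mul_vec]
    simp only [bil_sub_right, mulVec_sub]
    ring
  rw [e]
  exact h.small hu (hv j hj) hi

/-- the value at the conjugate of the tame generator -/
theorem c_conj {u v : Fin n → E} (hu : u ∈ WI I T r) (hv : v ∈ WI I T r) :
    pr0 (t (bil Sm u (r (σ * τ * σ⁻¹) *ᵥ v - v))) = q • pr0 (t (bil Sm u (r τ *ᵥ v - v))) := by
  obtain ⟨W, hW, h1⟩ := h.near v u
  refine hom_conj h.tame hW (c := fun i => pr0 (t (bil Sm u (r i *ᵥ v - v)))) (h.c_hom hu hv)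
    fun w hw _ => ?_
  exact pr0_zero_of_norm (h.lat.tint _ (h1 w hw))

/-- exchange of the two variables -/
theorem FF_swap {x y : Fin n → E} (hx : x ∈ WI I T r) (hy : y ∈ WI I T r) :
    pr0 (t (FF σ τ Sm pr r y x)) = pr0 (t (FF σ τ Sm pr r x (r σ *ᵥ (r σ *ᵥ y)))) := by
  have h1 : pr0 (t ((q : E) * FF σ τ Sm pr r y x)) =
      pr0 (t (bil Sm (pr *ᵥ x) (r (σ * τ * σ⁻¹) *ᵥ (r σ *ᵥ y) - r σ *ᵥ y))) := by
    apply pr0_eq_of h.lat
    have hsI : σ * τ * σ⁻¹ ∈ I := h.tame.In.conj_mem τ h.tame.τI σ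
    have e1 : (q : E) * FF σ τ Sm pr r y x =
        -bil Sm (r (σ * τ * σ⁻¹) *ᵥ (pr *ᵥ x) - pr *ᵥ x) (r σ *ᵥ y) := by
      unfold FF
      have e2 := h.dσ (pr *ᵥ y) (r τ *ᵥ (r σ⁻¹ *ᵥ x) - r σ⁻¹ *ᵥ x)
      have e3 : r σ *ᵥ (r τ *ᵥ (r σ⁻¹ *ᵥ x) - r σ⁻¹ *ᵥ x) = r (σ * τ * σ⁻¹) *ᵥ x - x := by
        rw [mulVec_sub, h.inv_vec, ← h.mul_vec, ← h.mul_vec]
      have e4 : r σ *ᵥ (pr *ᵥ y) = r σ *ᵥ y - pr *ᵥ (r σ *ᵥ y) := by
        rw [h.pσ, mulVec_sub]
        abel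
      have e5 : pr *ᵥ (r (σ * τ * σ⁻¹) *ᵥ x - x) = r (σ * τ * σ⁻¹) *ᵥ (pr *ᵥ x) - pr *ᵥ x := by
        rw [mulVec_sub, h.pI _ hsI]
      rw [e3, e4, h.bil_pr', e5, h.sym] at e2
      have e6 : bil Sm (r (σ * τ * σ⁻¹) *ᵥ (pr *ᵥ x) - pr *ᵥ x) (r σ *ᵥ y - pr *ᵥ (r σ *ᵥ y)) =
          bil Sm (r (σ * τ * σ⁻¹) *ᵥ (pr *ᵥ x) - pr *ᵥ x) (r σ *ᵥ y) := by
        rw [← e5, ← h.bil_pr]
      rw [e6] at e2
      rw [e2, neg_neg]
    rw [e1]
    have e7 : -bil Sm (r (σ * τ * σ⁻¹) *ᵥ (pr *ᵥ x) - pr *ᵥ x) (r σ *ᵥ y) -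
        bil Sm (pr *ᵥ x) (r (σ * τ * σ⁻¹) *ᵥ (r σ *ᵥ y) - r σ *ᵥ y) =
        -(bil Sm (r (σ * τ * σ⁻¹) *ᵥ (pr *ᵥ x) - pr *ᵥ x) (r σ *ᵥ y) +
          bil Sm (pr *ᵥ x) (r (σ * τ * σ⁻¹) *ᵥ (r σ *ᵥ y) - r σ *ᵥ y)) := by ring
    rw [e7, norm_neg]
    exact h.anti (h.WI_pr hx) (h.WI_act σ hy) hsI
  rw [h.c_conj (h.WI_pr hx) (h.WI_act σ hy)] at h1
  have h2 : pr0 (t ((q : E) * FF σ τ Sm pr r y x)) = q • pr0 (t (FF σ τ Sm pr r y x)) := by
    rw [← nsmul_eq_mul, map_nsmul, map_nsmul]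
  have h3 : FF σ τ Sm pr r x (r σ *ᵥ (r σ *ᵥ y)) =
      bil Sm (pr *ᵥ x) (r τ *ᵥ (r σ *ᵥ y) - r σ *ᵥ y) := by
    unfold FF
    rw [h.inv_vec']
  rw [h2] at h1
  rw [h3, ← sub_eq_zero]
  refine odd_nsmul h.tame.lodd ?_
  rw [smul_sub, h1, sub_self]

end PolD

theorem hN_mem (h : PolD TP χ a σ τ q I l t T Sm pr r r') (N : ℕ) (m : XT h N) :
    actN l N r h.rep.st σ (actN l N r h.rep.st σ (m : MN T l N)) ∈ XN h N := by
  have e : mq T (r σ *ᵥ (r σ *ᵥ lft ((m : MN T l N) : Wq T))) =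
      actN l N r h.rep.st σ (actN l N r h.rep.st σ (m : MN T l N)) := by
    rw [coe_actN, coe_actN, actQ.eq_def T (r σ) (m : MN T l N), actQ_mq (h.rep.st σ)]
  rw [mem_XN e]
  exact h.WI_act σ (h.WI_act σ m.mem)

/-- the action of the square of the Frobenius element on an element -/
noncomputable def hN0 (h : PolD TP χ a σ τ q I l t T Sm pr r r') (N : ℕ) (m : XT h N) : XT h N :=
  XT.mk _ (hN_mem h N m)

theorem hN0_coe (h : PolD TP χ a σ τ q I l t T Sm pr r r') (N : ℕ) (m : XT h N) :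
    (((hN0 h N m : XT h N) : MN T l N) : Wq T) = actQ T (r σ) (actQ T (r σ) ((m : MN T l N) : Wq T)) :=
  rfl

/-- the action of the square of the Frobenius element -/
noncomputable def hN (h : PolD TP χ a σ τ q I l t T Sm pr r r') (N : ℕ) : XT h N →ₗ[OE E] XT h N where
  toFun m := hN0 h N m
  map_add' m m' := XT.ext (by
    rw [XT.coe_add, hN0_coe, hN0_coe, hN0_coe, XT.coe_add, KR.actQ_add (h.rep.st σ),
      KR.actQ_add (h.rep.st σ)])
  map_smul' c m := XT.ext (by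
    rw [RingHom.id_apply, XT.coe_smul, hN0_coe, hN0_coe, XT.coe_smul, KR.actQ_smul (h.rep.st σ),
      KR.actQ_smul (h.rep.st σ)])

theorem hN_val (h : PolD TP χ a σ τ q I l t T Sm pr r r') (N : ℕ) (m : XT h N) {x : Fin n → E}
    (hx : mq T x = (m : MN T l N)) :
    (((hN h N m : XT h N) : MN T l N) : Wq T) = mq T (r σ *ᵥ (r σ *ᵥ x)) := by
  show (((hN0 h N m : XT h N) : MN T l N) : Wq T) = _
  rw [hN0_coe, ← hx, actQ_mq (h.rep.st σ), actQ_mq (h.rep.st σ)]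

theorem hN_surj (h : PolD TP χ a σ τ q I l t T Sm pr r r') (N : ℕ) :
    Function.Surjective (hN h N) := by
  intro m
  have hlft : (l : E) ^ N • lft ((m : MN T l N) : Wq T) ∈ T := (m : MN T l N).lft_mem
  obtain ⟨y, hy⟩ := XT.ex h (N := N) (x := r σ⁻¹ *ᵥ (r σ⁻¹ *ᵥ lft ((m : MN T l N) : Wq T)))
    (h.WI_act _ (h.WI_act _ m.mem)) (by
      rw [← mulVec_smul, ← mulVec_smul]
      exact h.rep.st _ _ (h.rep.st _ _ hlft))
  refine ⟨y, XT.ext ?_⟩
  rw [hN_val h N y hy, h.inv_vec, h.inv_vec, mq_lft]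

theorem pN_swap (h : PolD TP χ a σ τ q I l t T Sm pr r r') (N : ℕ) (x y : XT h N) :
    pN h N y x = pN h N x (hN h N y) := by
  rw [pN_val h N y x (mq_lft _) (mq_lft _), pN_val h N x (hN h N y) (mq_lft _)
    (hN_val h N y (mq_lft _)).symm]
  exact h.FF_swap x.mem y.mem

/-- the radical -/
def K0 (h : PolD TP χ a σ τ q I l t T Sm pr r r') (N : ℕ) : Submodule (OE E) (XT h N) where
  carrier := {m | pr *ᵥ lft ((m : MN T l N) : Wq T) ∈ TV I T r}
  add_mem' := fun {m m'} hm hm' => by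
    have e : lft (((m + m' : XT h N) : MN T l N) : Wq T) -
        (lft ((m : MN T l N) : Wq T) + lft ((m' : MN T l N) : Wq T)) ∈ T := by
      rw [← mq_eq, mq_lft, mq_add, mq_lft, mq_lft]
      rfl
    have e1 := (TV I T r).add_mem (Submodule.mem_sup_left (h.pT _ e)) ((TV I T r).add_mem hm hm')
    rwa [← mulVec_add, ← mulVec_add, sub_add_cancel] at e1
  zero_mem' := by
    have e : lft (((0 : XT h N) : MN T l N) : Wq T) ∈ T := by
      rw [← mq_eq_zero, mq_lft]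
      rfl
    exact Submodule.mem_sup_left (h.pT _ e)
  smul_mem' := fun c m hm => by
    have e : lft (((c • m : XT h N) : MN T l N) : Wq T) - (c : E) • lft ((m : MN T l N) : Wq T) ∈ T := by
      rw [← mq_eq, mq_lft, mq_smul, mq_lft]
      rfl
    have e1 := (TV I T r).add_mem (Submodule.mem_sup_left (h.pT _ e)) ((TV I T r).smul_mem c hm)
    rwa [show c • (pr *ᵥ lft ((m : MN T l N) : Wq T)) = pr *ᵥ ((c : E) • lft ((m : MN T l N) : Wq T)) from
      (mulVec_smul _ _ _).symm, ← mulVec_add, sub_add_cancel] at e1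

theorem mem_K0 {h : PolD TP χ a σ τ q I l t T Sm pr r r'} {N : ℕ} {m : XT h N} {x : Fin n → E}
    (hx : mq T x = (m : MN T l N)) : m ∈ K0 h N ↔ pr *ᵥ x ∈ TV I T r := by
  have e : lft ((m : MN T l N) : Wq T) - x ∈ T := by rw [← mq_eq, mq_lft, hx]
  have e' : pr *ᵥ lft ((m : MN T l N) : Wq T) - pr *ᵥ x ∈ TV I T r := by
    rw [← mulVec_sub]
    exact Submodule.mem_sup_left (h.pT _ e)
  constructor
  · intro hm
    have e1 := (TV I T r).sub_mem hm e'
    rwa [sub_sub_cancel] at e1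
  · intro hm
    have e1 := (TV I T r).add_mem e' hm
    rwa [sub_add_cancel] at e1

theorem K0_rad (h : PolD TP χ a σ τ q I l t T Sm pr r r') (N : ℕ) {y : XT h N} (hy : y ∈ K0 h N)
    (x : XT h N) : pN h N x y = 0 := by
  rw [pN_val h N x y (mq_lft _) (mq_lft _)]
  apply pr0_zero_of_norm
  apply h.lat.tint
  set x' := lft ((x : MN T l N) : Wq T) with hx'
  set y' := lft ((y : MN T l N) : Wq T) with hy'
  obtain ⟨u, hu, v, hv, e⟩ := mem_TV.1 hy
  -- only the component `pr y` matters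
  have e1 : FF σ τ Sm pr r x' y' = FF σ τ Sm pr r x' u := by
    have e2 : FF σ τ Sm pr r x' v = 0 := by
      unfold FF
      rw [(h.VO_act σ⁻¹ hv) τ h.tame.τI, sub_self, bil, mulVec_zero, dotProduct_zero]
    have e3 : FF σ τ Sm pr r x' y' = FF σ τ Sm pr r x' (pr *ᵥ y') := by
      have e4 : FF σ τ Sm pr r x' (y' - pr *ᵥ y') = 0 := by
        unfold FF
        rw [← h.pσ', ← h.pI τ h.tame.τI, ← mulVec_sub, h.iso]
      have e5 := FF_add_right (σ := σ) (τ := τ) (Sm := Sm) (pr := pr) (r := r) x' (y' - pr *ᵥ y')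
        (pr *ᵥ y')
      rw [sub_add_cancel, e4, zero_add] at e5
      exact e5
    rw [e3, ← e, FF_add_right, e2, add_zero]
  rw [e1]
  exact h.FF_small x.mem hu

/-- the radical of the pairing is `K0` -/
theorem K0_iff [FiniteDimensional ℚ_[2] E] (h : PolD TP χ a σ τ q I l t T Sm pr r r') {N : ℕ}
    (hfin : ∀ w ∈ WI I T r, ∃ v ∈ VO I r, (l : E) ^ N • (w - v) ∈ T) (y : XT h N) :
    y ∈ K0 h N ↔ ∀ x, pN h N x y = 0 := by
  refine ⟨fun hy => K0_rad h N hy, fun hy => ?_⟩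
  have hlN : ((l : E) ^ N) ≠ 0 := pow_ne_zero _ h.lat.lne
  set y' := lft ((y : MN T l N) : Wq T) with hy'
  set z := r σ⁻¹ *ᵥ (pr *ᵥ y') with hz
  have hzW : z ∈ WI I T r := h.WI_act _ (h.WI_pr y.mem)
  have hprz : pr *ᵥ z = 0 := by rw [hz, h.pσ', h.pp, sub_self, mulVec_zero]
  classical
  let f : P → MN T l N := fun i => if hi : i ∈ I then
    ⟨mq T (((l : E) ^ N)⁻¹ • (r i *ᵥ z - z)), by
      rw [Submodule.mem_torsionBy_iff, ← mq_smul, mq_eq_zero, Subring.coe_pow, smul_smul,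
        mul_inv_cancel₀ hlN, one_smul]
      exact hzW i hi⟩ else 0
  have hf : ∀ i ∈ I, (f i : Wq T) = mq T (((l : E) ^ N)⁻¹ • (r i *ᵥ z - z)) := by
    intro i hi
    simp only [f, dif_pos hi]
  have hpair := KR.pair_MN h.lat h.rep N
  have hact := hpair.act
  have hfinM := GP.MN_finite h.lat N
  obtain ⟨m', hm'⟩ := dual_I h.tame (B := bN h.lat N) (f := f) hact hact hpair.sm hpair.sm
    (fun i hi m m' => by
      have e := hpair.eqv i m m'
      have e1 : actN l N r' h.rep.st' i m' = actN l N r h.rep.st i m' := by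
        apply Subtype.ext
        rw [coe_actN, coe_actN, h.rI i hi]
      rw [e1, h.tame.Iχ i hi, one_smul] at e
      exact e)
    (GP.bN_nd h.lat N)
    (fun m' hm => GP.bN_nd h.lat N m' fun m => by rw [GP.bN_symm]; exact hm m)
    (fun i hi j hj => by
      apply Subtype.ext
      rw [Submodule.coe_add, coe_actN, hf _ (I.mul_mem hi hj), hf _ hi, hf _ hj,
        actQ_mq (h.rep.st i), ← mq_add, mulVec_smul, ← smul_add, mulVec_sub, h.mul_vec i j z]
      congr 2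
      abel)
    (by
      obtain ⟨W, hW, h1⟩ := h.near' z (((l : E) ^ N)⁻¹)
      refine ⟨W, hW, fun w hw hwI => Subtype.ext ?_⟩
      rw [hf w hwI]
      exact mq_eq_zero.2 (h1 w hw))
    (by
      intro m hm
      have hmX : m ∈ XN h N := mem_XN'.2 hm
      have e1 := hy (XT.mk m hmX)
      rw [pN_val h N (XT.mk m hmX) y (x' := lft (m : Wq T)) (mq_lft _) (mq_lft _)] at e1
      rw [bN_val h.lat N m (f τ) (mq_lft _) (hf τ h.tame.τI).symm, bil_smul_right, ← mul_assoc,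
        mul_inv_cancel₀ hlN, one_mul]
      rw [← e1]
      congr 2
      -- the two forms agree
      set x' := lft (m : Wq T) with hx'
      have k1 : pr *ᵥ (r τ *ᵥ z - z) = 0 := by
        rw [mulVec_sub, h.pI τ h.tame.τI, hprz, mulVec_zero, sub_zero]
      have k2 : bil Sm (x' - pr *ᵥ x') (r τ *ᵥ z - z) = 0 := by
        rw [h.bil_pr', k1, bil, mulVec_zero, dotProduct_zero]
      have k3 : bil Sm x' (r τ *ᵥ z - z) = bil Sm (pr *ᵥ x') (r τ *ᵥ z - z) := by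
        rw [bil_sub_left, sub_eq_zero] at k2
        exact k2
      rw [k3]
      unfold FF
      rw [h.bil_pr _ (r τ *ᵥ (r σ⁻¹ *ᵥ y') - r σ⁻¹ *ᵥ y')]
      congr 1
      have k4 : r σ⁻¹ *ᵥ y' - pr *ᵥ (r σ⁻¹ *ᵥ y') = z := by
        rw [h.pσ', mulVec_sub, sub_sub_cancel]
      rw [mulVec_sub, h.pI τ h.tame.τI, ← k4, mulVec_sub]
      abel)
  set m₁ := lft (m' : Wq T) with hm₁
  have hW : ((l : E) ^ N)⁻¹ • z - m₁ ∈ WI I T r := by
    intro i hi
    have e1 := congrArg (fun m : MN T l N => (m : Wq T)) (hm' i hi)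
    have e2 : (f i : Wq T) = actQ T (r i) m' - (m' : Wq T) := by
      have := e1
      simp only [AddSubgroupClass.coe_sub, coe_actN] at this
      exact this
    rw [hf i hi, ← mq_lft (m' : Wq T), actQ_mq (h.rep.st i), ← mq_sub, mq_eq] at e2
    have e3 : r i *ᵥ (((l : E) ^ N)⁻¹ • z - m₁) - (((l : E) ^ N)⁻¹ • z - m₁) =
        ((l : E) ^ N)⁻¹ • (r i *ᵥ z - z) - (r i *ᵥ m₁ - m₁) := by
      rw [mulVec_sub, mulVec_smul, smul_sub]
      abel
    rw [e3]
    exact e2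
  obtain ⟨v, hv, hv1⟩ := hfin _ hW
  have hm1T : (l : E) ^ N • m₁ ∈ T := m'.lft_mem
  have hzT : z ∈ TV I T r := by
    refine mem_TV.2 ⟨(l : E) ^ N • (((l : E) ^ N)⁻¹ • z - m₁ - v) + (l : E) ^ N • m₁,
      T.add_mem hv1 hm1T, (l : E) ^ N • v, VO_smul _ hv, ?_⟩
    rw [smul_sub, smul_sub, smul_smul, mul_inv_cancel₀ hlN, one_smul]
    abel
  have e := h.TV_act σ hzT
  rw [hz, h.inv_vec] at e
  exact e

end Pool.Agent.Work.MP_787500_nt.EV
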