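import Mathlib
import Pool.Agent.Work.MP_787500_nt.EV.Pair
import Pool.Agent.Work.MP_787500_nt.EV.Core
import Pool.Agent.Work.MP_787500_nt.GP.L13_CardN

/-!
The number of elements of the quotient of the elements of level `N` fixed by the inertia group by the radical and the
multiples of `l`.
-/

set_option autoImplicit false
set_option linter.unusedSectionVars false

namespace Pool.Agent.Work.MP_787500_nt.EV

open Matrix
open Pool.Agent.Work.MP_787500_nt.GP (A0 IsAct EvPow IsPow OE MN actN actQ bN bil mq lft mq_lft mq_eq mq_add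
  mq_sub mq_smul mq_eq_zero Wq Lat pr0 lamN mem_OE bil_add_left bil_add_right bil_sub_left bil_sub_right
  bil_smul_left bil_smul_right pr0_zero_of_norm actQ_mq bil_symm bN_val coe_actN)
open Pool.Agent.Work.MP_787500_nt.KR (FSys Smooth Z1 LocRep ZV zV)
open Pool.Agent.Work.MP_787500_nt.PA (toE)
open Pool.Agent.Work.MP_787500_nt.QL (TameF)

variable {E : Type*} [NormedField E] [NormedAlgebra ℚ_[2] E] {n : ℕ} {P : Type*} [Group P]
  {TP : FSys P} {χ a : P → ℤ_[2]} {σ τ : P} {q : ℕ} {I : Subgroup P} {l : OE E}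
  {t : E →ₗ[ℚ_[2]] ℚ_[2]} {T : Submodule (OE E) (Fin n → E)} {Sm pr : Matrix (Fin n) (Fin n) E}
  {r r' : P → Matrix (Fin n) (Fin n) E}

/-- the elements of level 1 fixed by `I` and by the projector -/
def X1 (h : PolD TP χ a σ τ q I l t T Sm pr r r') : Submodule (OE E) (MN T l 1) where
  carrier := {m | m ∈ XN h 1 ∧ lft (m : Wq T) - pr *ᵥ lft (m : Wq T) ∈ T}
  add_mem' := fun {m m'} hm hm' => by
    refine ⟨(XN h 1).add_mem hm.1 hm'.1, ?_⟩
    have e : lft ((m + m' : MN T l 1) : Wq T) - (lft (m : Wq T) + lft (m' : Wq T)) ∈ T := by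
      rw [← mq_eq, mq_lft, mq_add, mq_lft, mq_lft]
      rfl
    have e1 := T.sub_mem e (h.pT _ e)
    have e2 := T.add_mem e1 (T.add_mem hm.2 hm'.2)
    have e3 : lft ((m + m' : MN T l 1) : Wq T) - pr *ᵥ lft ((m + m' : MN T l 1) : Wq T) =
        lft ((m + m' : MN T l 1) : Wq T) - (lft (m : Wq T) + lft (m' : Wq T)) -
          pr *ᵥ (lft ((m + m' : MN T l 1) : Wq T) - (lft (m : Wq T) + lft (m' : Wq T))) +
          (lft (m : Wq T) - pr *ᵥ lft (m : Wq T) + (lft (m' : Wq T) - pr *ᵥ lft (m' : Wq T))) := by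
      simp only [mulVec_sub, mulVec_add]
      abel
    rw [e3]
    exact e2
  zero_mem' := by
    refine ⟨(XN h 1).zero_mem, ?_⟩
    have e : lft ((0 : MN T l 1) : Wq T) ∈ T := by
      rw [← mq_eq_zero, mq_lft]
      rfl
    exact T.sub_mem e (h.pT _ e)
  smul_mem' := fun c m hm => by
    refine ⟨(XN h 1).smul_mem c hm.1, ?_⟩
    have e : lft ((c • m : MN T l 1) : Wq T) - (c : E) • lft (m : Wq T) ∈ T := by
      rw [← mq_eq, mq_lft, mq_smul, mq_lft]
      rfl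
    have e1 := T.sub_mem e (h.pT _ e)
    have e2 := T.add_mem e1 (T.smul_mem c hm.2)
    have e3 : lft ((c • m : MN T l 1) : Wq T) - pr *ᵥ lft ((c • m : MN T l 1) : Wq T) =
        lft ((c • m : MN T l 1) : Wq T) - (c : E) • lft (m : Wq T) -
          pr *ᵥ (lft ((c • m : MN T l 1) : Wq T) - (c : E) • lft (m : Wq T)) +
          c • (lft (m : Wq T) - pr *ᵥ lft (m : Wq T)) := by
      have e4 : c • (lft (m : Wq T) - pr *ᵥ lft (m : Wq T)) =
        (c : E) • (lft (m : Wq T) - pr *ᵥ lft (m : Wq T)) := rfl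
      rw [e4]
      simp only [mulVec_sub, mulVec_smul, smul_sub]
      abel
    rw [e3]
    exact e2

theorem mem_X1 {h : PolD TP χ a σ τ q I l t T Sm pr r r'} {m : MN T l 1} {x : Fin n → E}
    (hx : mq T x = m) : m ∈ X1 h ↔ x ∈ WI I T r ∧ x - pr *ᵥ x ∈ T := by
  have e : lft (m : Wq T) - x ∈ T := by rw [← mq_eq, mq_lft, hx]
  have e1 := T.sub_mem e (h.pT _ e)
  have e2 : lft (m : Wq T) - pr *ᵥ lft (m : Wq T) - (x - pr *ᵥ x) ∈ T := by
    have e3 : lft (m : Wq T) - pr *ᵥ lft (m : Wq T) - (x - pr *ᵥ x) =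
        lft (m : Wq T) - x - pr *ᵥ (lft (m : Wq T) - x) := by
      rw [mulVec_sub]
      abel
    rw [e3]
    exact e1
  show (m ∈ XN h 1 ∧ lft (m : Wq T) - pr *ᵥ lft (m : Wq T) ∈ T) ↔ _
  rw [mem_XN hx]
  refine and_congr_right fun _ => ?_
  constructor
  · intro hm
    have := T.sub_mem hm e2
    rwa [sub_sub_cancel] at this
  · intro hm
    have := T.add_mem e2 hm
    rwa [sub_add_cancel] at this

/-- the vectors fixed by `I` and by the projector -/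
def V1 (I : Subgroup P) (pr : Matrix (Fin n) (Fin n) E) (r : P → Matrix (Fin n) (Fin n) E) :
    Submodule E (Fin n → E) where
  carrier := {v | (∀ i ∈ I, r i *ᵥ v = v) ∧ pr *ᵥ v = v}
  add_mem' := fun hv hw =>
    ⟨fun i hi => by rw [mulVec_add, hv.1 i hi, hw.1 i hi], by rw [mulVec_add, hv.2, hw.2]⟩
  zero_mem' := ⟨fun i _ => mulVec_zero _, mulVec_zero _⟩
  smul_mem' := fun c v hv =>
    ⟨fun i hi => by rw [mulVec_smul, hv.1 i hi], by rw [mulVec_smul, hv.2]⟩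

/-- the constant functions with values in `V1` -/
def LC (I : Subgroup P) (pr : Matrix (Fin n) (Fin n) E) (r : P → Matrix (Fin n) (Fin n) E) :
    Submodule E (Unit → Fin n → E) :=
  (V1 I pr r).comap (LinearMap.proj (R := E) (φ := fun _ : Unit => Fin n → E) ())

theorem finrank_LC : Module.finrank E (LC I pr r) = Module.finrank E (V1 I pr r) := by
  let e : (Unit → Fin n → E) ≃ₗ[E] (Fin n → E) := LinearEquiv.funUnique Unit E (Fin n → E)
  have h1 : LC I pr r = (V1 I pr r).comap e.toLinearMap := rfl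
  rw [h1]
  exact LinearEquiv.finrank_eq (e.ofSubmodule' (V1 I pr r))

variable [FiniteDimensional ℚ_[2] E]

theorem card_LC [IsLocalRing (OE E)] (h : PolD TP χ a σ τ q I l t T Sm pr r r') :
    Nat.card (lamN T l 1 (LC I pr r)) =
      Nat.card (IsLocalRing.ResidueField (OE E)) ^ Module.finrank E (V1 I pr r) := by
  rw [GP.card_lamN h.lat 1 (LC I pr r) fun X _ => ⟨‖X ()‖, fun _ => le_rfl⟩, one_mul, finrank_LC]

theorem iN_mem0 (h : PolD TP χ a σ τ q I l t T Sm pr r r') {N : ℕ} (hN : 1 ≤ N) (s : X1 h) :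
    (⟨((s : MN T l 1) : Wq T), (Submodule.mem_torsionBy_iff _ _).2 (by
      obtain ⟨c, hc⟩ := pow_dvd_pow l hN
      rw [hc, mul_comm, mul_smul, (s : MN T l 1).mem, smul_zero])⟩ : MN T l N) ∈ XN h N :=
  (mem_XN (mq_lft _)).2 s.2.1

/-- the inclusion of the level 1 -/
noncomputable def iN (h : PolD TP χ a σ τ q I l t T Sm pr r r') {N : ℕ} (hN : 1 ≤ N) :
    X1 h →+ XT h N where
  toFun s := XT.mk _ (iN_mem0 h hN s)
  map_zero' := rfl
  map_add' := fun s s' => rfl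

theorem iN_val (h : PolD TP χ a σ τ q I l t T Sm pr r r') {N : ℕ} (hN : 1 ≤ N) (s : X1 h) :
    (((iN h hN s : XT h N) : MN T l N) : Wq T) = ((s : MN T l 1) : Wq T) := rfl

theorem iN_mem (h : PolD TP χ a σ τ q I l t T Sm pr r r') {N : ℕ} (hN : 1 ≤ N) (s : X1 h)
    {x : Fin n → E} (hx : mq T x = ((s : MN T l 1) : Wq T)) :
    iN h hN s ∈ K0 h N ↔ pr *ᵥ x ∈ TV I T r := by
  rw [← iN_val h hN s] at hx
  exact mem_K0 hx

theorem ker_cnt (h : PolD TP χ a σ τ q I l t T Sm pr r r') {N : ℕ} (hN : 1 ≤ N) :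
    Nat.card {s : X1 h // iN h hN s ∈ K0 h N} = Nat.card (lamN T l 1 (LC I pr r)) := by
  have key : ∀ s : {s : X1 h // iN h hN s ∈ K0 h N}, (fun _ : Unit => ((s.1 : X1 h) : MN T l 1)) ∈
      lamN T l 1 (LC I pr r) := by
    rintro ⟨s, hs⟩
    rw [iN_mem h hN s (mq_lft _)] at hs
    obtain ⟨u, hu, v, hv, e⟩ := mem_TV.1 hs
    refine ⟨fun _ => pr *ᵥ v, ⟨h.VO_pr hv, h.pp v⟩, fun _ => ?_⟩
    show ((s : MN T l 1) : Wq T) = mq T (pr *ᵥ v)
    have hs2 := s.2.2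
    rw [← mq_lft ((s : MN T l 1) : Wq T), mq_eq]
    set s' := lft ((s : MN T l 1) : Wq T) with hs'
    have e1 : s' - pr *ᵥ v = (s' - pr *ᵥ s') + pr *ᵥ u := by
      have e2 : pr *ᵥ s' = pr *ᵥ u + pr *ᵥ v := by rw [← mulVec_add, e, h.pp]
      rw [e2]
      abel
    rw [e1]
    exact T.add_mem hs2 (h.pT _ hu)
  have key2 : ∀ x : lamN T l 1 (LC I pr r), ∃ hx : x.1 () ∈ X1 h, iN h hN ⟨x.1 (), hx⟩ ∈ K0 h N := by
    rintro ⟨x, X, hX, hx⟩
    have e : pr *ᵥ X () = X () := hX.2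
    have h1 : x () ∈ X1 h := (mem_X1 (hx ()).symm).2 ⟨h.VO_le hX.1, by
      rw [e, sub_self]
      exact T.zero_mem⟩
    exact ⟨h1, (iN_mem h hN ⟨x (), h1⟩ (hx ()).symm).2 (Submodule.mem_sup_right (h.VO_pr hX.1))⟩
  exact Nat.card_congr ⟨fun s => ⟨_, key s⟩, fun x => ⟨⟨x.1 (), (key2 x).1⟩, (key2 x).2⟩, fun s => rfl,
    fun x => Subtype.ext (funext fun _ => rfl)⟩

theorem cnt1 (h : PolD TP χ a σ τ q I l t T Sm pr r r') {N : ℕ} (hN : 1 ≤ N) {k : XT h N}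
    (hk : k ∈ K0 h N) (s : X1 h) : l • (k + iN h hN s) ∈ K0 h N := by
  rw [smul_add]
  refine (K0 h N).add_mem ((K0 h N).smul_mem l hk) ?_
  have hp := (s : MN T l 1).lft_mem
  rw [pow_one] at hp
  have hx : mq T ((l : E) • lft ((s : MN T l 1) : Wq T)) =
      (((l • iN h hN s : XT h N) : MN T l N) : Wq T) := by
    rw [mq_smul, mq_lft, XT.coe_smul, iN_val]
  exact (mem_K0 hx).2 (Submodule.mem_sup_left (h.pT _ hp))

theorem cnt2 (h : PolD TP χ a σ τ q I l t T Sm pr r r') {N : ℕ} (hN : 1 ≤ N) {x : XT h N}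
    (hx1 : l • x ∈ K0 h N) : ∃ k ∈ K0 h N, ∃ s, k + iN h hN s = x := by
  have hl0 := h.lat.lne
  have hxW := x.mem
  have hx3 := mq_lft ((x : MN T l N) : Wq T)
  have hx2 : mq T ((l : E) • lft ((x : MN T l N) : Wq T)) = (((l • x : XT h N) : MN T l N) : Wq T) := by
    rw [mq_smul, mq_lft, XT.coe_smul]
  rw [mem_K0 hx2] at hx1
  set x' := lft ((x : MN T l N) : Wq T) with hx'
  obtain ⟨u, hu, v, hv, e⟩ := mem_TV.1 hx1
  have hpx : pr *ᵥ x' = (l : E)⁻¹ • u + (l : E)⁻¹ • v := by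
    rw [← smul_add, e, mulVec_smul, smul_smul, inv_mul_cancel₀ hl0, one_smul]
  obtain ⟨s', hs'⟩ : ∃ s', s' = pr *ᵥ ((l : E)⁻¹ • u) := ⟨_, rfl⟩
  have hs1 : (l : E) • s' ∈ T := by
    rw [hs', ← mulVec_smul, smul_smul, mul_inv_cancel₀ hl0, one_smul]
    exact h.pT _ hu
  have hs2 : s' ∈ WI I T r := by
    have e1 : (l : E)⁻¹ • u = pr *ᵥ x' - (l : E)⁻¹ • v := by
      rw [hpx]
      abel
    rw [hs', e1]
    exact h.WI_pr ((WI I T r).sub_mem (h.WI_pr hxW) (h.VO_le (VO_smul _ hv)))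
  have hs3 : pr *ᵥ s' = s' := by rw [hs', h.pp]
  have hs5 : l ^ 1 • mq T s' = 0 := by
    rw [pow_one, ← mq_smul, mq_eq_zero]
    exact hs1
  obtain ⟨s, hs6⟩ : ∃ s : MN T l 1, mq T s' = (s : Wq T) :=
    ⟨⟨mq T s', (Submodule.mem_torsionBy_iff _ _).2 hs5⟩, rfl⟩
  have hs4 : s ∈ X1 h := (mem_X1 hs6).2 ⟨hs2, by
    rw [hs3, sub_self]
    exact T.zero_mem⟩
  refine ⟨x - iN h hN ⟨s, hs4⟩, ?_, ⟨s, hs4⟩, sub_add_cancel _ _⟩
  have e2 : mq T (x' - s') = (((x - iN h hN ⟨s, hs4⟩ : XT h N) : MN T l N) : Wq T) := by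
    rw [mq_sub, hx3, hs6, XT.coe_sub, iN_val]
  rw [mem_K0 e2, mulVec_sub, hs3]
  have e3 : pr *ᵥ x' - s' = pr *ᵥ ((l : E)⁻¹ • v) := by
    rw [hs', ← h.pp x', hpx, mulVec_add]
    abel
  rw [e3]
  exact Submodule.mem_sup_right (h.VO_pr (VO_smul _ hv))

instance XT_finite (h : PolD TP χ a σ τ q I l t T Sm pr r r') (N : ℕ) : Finite (XT h N) := by
  have := GP.MN_finite h.lat N
  exact Finite.of_injective (fun x : XT h N => (x : MN T l N)) fun x y e => XT.ext (by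
    have e' : (x : MN T l N) = (y : MN T l N) := e
    rw [e'])

theorem cnt [IsLocalRing (OE E)] (h : PolD TP χ a σ τ q I l t T Sm pr r r') {N : ℕ} (hN : 1 ≤ N) :
    Nat.card (X1 h) = cQ (O := OE E) (X := XT h N) (K0 h N ⊔ lX (OE E) (XT h N) l) *
      Nat.card (IsLocalRing.ResidueField (OE E)) ^ Module.finrank E (V1 I pr r) := by
  have hfin1 := GP.MN_finite h.lat 1
  rw [← card_LC h, ← ker_cnt h hN]
  exact cnt_abs (O := OE E) (X := XT h N) l (K0 h N) (iN h hN) (fun k hk s => cnt1 h hN hk s)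
    fun x hx => cnt2 h hN hx

end Pool.Agent.Work.MP_787500_nt.EV
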