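import Mathlib
import Pool.Agent.Work.MP_787500_nt.EV.Defs

/-!
The vectors whose classes are fixed by the inertia group are, modulo the fixed vectors, bounded.
-/

set_option autoImplicit false
set_option linter.unusedSectionVars false

namespace Pool.Agent.Work.MP_787500_nt.EV

open Matrix
open Pool.Agent.Work.MP_787500_nt.GP (A0 IsAct EvPow IsPow OE MN actN actQ bN bil mq lft mq_lft mq_eq mq_add
  mq_sub mq_smul mq_eq_zero Wq Lat pr0 lamN mem_OE bil_add_left bil_add_right bil_sub_left bil_sub_right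
  bil_smul_left bil_smul_right pr0_zero_of_norm actQ_mq bil_symm)
open Pool.Agent.Work.MP_787500_nt.KR (FSys Smooth Z1 LocRep ZV zV)
open Pool.Agent.Work.MP_787500_nt.PA (toE)
open Pool.Agent.Work.MP_787500_nt.QL (TameF)

section bound

variable {E : Type*} [NormedField E] [NormedAlgebra ℚ_[2] E] {n : ℕ}
  {b : Matrix (Fin n) (Fin n) E} {l : OE E} {t : E →ₗ[ℚ_[2]] ℚ_[2]}
  {T : Submodule (OE E) (Fin n → E)}

/-- every functional on `L` is bounded on the members with values in `T` -/
private theorem f_bdd {D : Type*} (h : Lat b l t T) (L : Submodule E (D → Fin n → E))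
    [FiniteDimensional E L] (f : Module.Dual E L) :
    ∃ C : ℝ, ∀ X : L, (∀ d, X.1 d ∈ T) → ‖f X‖ ≤ C := by
  let ev : D × Fin n → Module.Dual E L := fun p =>
    (LinearMap.proj (R := E) (φ := fun _ : Fin n => E) p.2 ∘ₗ
      LinearMap.proj (R := E) (φ := fun _ : D => Fin n → E) p.1) ∘ₗ L.subtype
  have hev : ∀ d i (X : L), ev (d, i) X = X.1 d i := fun _ _ _ => rfl
  let W : Submodule E (Module.Dual E L) := Submodule.span E (Set.range ev)
  have hW : W = ⊤ := by
    have h1 : W.dualCoannihilator = ⊥ := by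
      rw [eq_bot_iff]
      intro X hX
      rw [Submodule.mem_dualCoannihilator] at hX
      rw [Submodule.mem_bot]
      refine Subtype.ext (funext fun d => funext fun i => ?_)
      exact hX (ev (d, i)) (Submodule.subset_span ⟨(d, i), rfl⟩)
    have h2 := Subspace.finrank_add_finrank_dualCoannihilator_eq W
    rw [h1, finrank_bot, add_zero, ← Subspace.dual_finrank_eq] at h2
    exact Submodule.eq_top_of_finrank_eq h2
  have hf : f ∈ W := by
    rw [hW]
    trivial
  obtain ⟨R, hR⟩ := h.bdd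
  induction hf using Submodule.span_induction with
  | mem x hx =>
    obtain ⟨⟨d, i⟩, rfl⟩ := hx
    exact ⟨R, fun X hX => (norm_le_pi_norm (X.1 d) i).trans (hR _ (hX d))⟩
  | zero => exact ⟨0, fun X _ => by simp⟩
  | add x y _ _ hx hy =>
    obtain ⟨C, hC⟩ := hx
    obtain ⟨C', hC'⟩ := hy
    exact ⟨C + C', fun X hX => (norm_add_le _ _).trans (add_le_add (hC X hX) (hC' X hX))⟩
  | smul a x _ hx =>
    obtain ⟨C, hC⟩ := hx
    refine ⟨‖a‖ * C, fun X hX => ?_⟩
    rw [LinearMap.smul_apply, smul_eq_mul, norm_mul]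
    exact mul_le_mul_of_nonneg_left (hC X hX) (norm_nonneg _)

/-- a power of `l` makes a bounded quantity small -/
theorem l_pow (h : Lat b l t T) (C ε : ℝ) (hε : 0 < ε) :
    ∃ k : ℕ, ‖(l : E)‖ ^ k * C < ε := by
  have h1 : Filter.Tendsto (fun k : ℕ => ‖(l : E)‖ ^ k * C) Filter.atTop (nhds (0 * C)) :=
    (tendsto_pow_atTop_nhds_zero_of_lt_one (norm_nonneg _) h.llt).mul_const C
  rw [zero_mul] at h1
  exact (h1.eventually (gt_mem_nhds hε)).exists

end bound

variable {E : Type*} [NormedField E] [NormedAlgebra ℚ_[2] E] {n : ℕ} {P : Type*} [Group P]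
  {TP : FSys P} {χ a : P → ℤ_[2]} {σ τ : P} {q : ℕ} {I : Subgroup P} {l : OE E}
  {t : E →ₗ[ℚ_[2]] ℚ_[2]} {T : Submodule (OE E) (Fin n → E)} {Sm pr : Matrix (Fin n) (Fin n) E}
  {r r' : P → Matrix (Fin n) (Fin n) E}

/-- the class of every element of `WI` modulo the fixed vectors has a representative killed by a fixed power
of `l` -/
theorem exists_N (h : PolD TP χ a σ τ q I l t T Sm pr r r') :
    ∃ N : ℕ, 1 ≤ N ∧ ∀ w ∈ WI I T r, ∃ v ∈ VO I r, (l : E) ^ N • (w - v) ∈ T := by
  let δ : (Fin n → E) →ₗ[E] (I → Fin n → E) :=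
    { toFun := fun w i => r i *ᵥ w - w
      map_add' := fun v w => by
        funext i
        show r i *ᵥ (v + w) - (v + w) = (r i *ᵥ v - v) + (r i *ᵥ w - w)
        rw [mulVec_add]
        abel
      map_smul' := fun c w => by
        funext i
        show r i *ᵥ (c • w) - c • w = c • (r i *ᵥ w - w)
        rw [mulVec_smul, smul_sub] }
  let L : Submodule E (I → Fin n → E) := LinearMap.range δ
  obtain ⟨s, hs⟩ := LinearMap.exists_rightInverse_of_surjective δ.rangeRestrict (by
    rw [LinearMap.range_eq_top]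
    exact LinearMap.surjective_rangeRestrict δ)
  have hs' : ∀ X : L, δ (s X) = X.1 := fun X => by
    have := LinearMap.congr_fun hs X
    exact congrArg Subtype.val this
  let e := Module.finBasis E L
  choose C hC using fun j => f_bdd h.lat L (e.coord j)
  have hbd : ∀ X : L, (∀ d, X.1 d ∈ T) → ‖s X‖ ≤ ∑ j, |C j| * ‖s (e j)‖ := by
    intro X hX
    have e1 : s X = ∑ j, e.coord j X • s (e j) := by
      conv_lhs => rw [← e.sum_repr X]
      rw [map_sum]
      refine Finset.sum_congr rfl fun j _ => ?_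
      rw [map_smul]
      rfl
    rw [e1]
    refine (norm_sum_le _ _).trans (Finset.sum_le_sum fun j _ => ?_)
    rw [norm_smul]
    exact mul_le_mul_of_nonneg_right ((hC j X hX).trans (le_abs_self _)) (norm_nonneg _)
  obtain ⟨r₀, hr₀, hT⟩ := h.lat.opn
  obtain ⟨k, hk⟩ := l_pow h.lat (∑ j, |C j| * ‖s (e j)‖) r₀ hr₀
  have hl1 : ‖(l : E)‖ ^ (k + 1) ≤ ‖(l : E)‖ ^ k := by
    rw [pow_succ]
    exact mul_le_of_le_one_right (by positivity) h.lat.llt.le
  refine ⟨k + 1, Nat.succ_pos k, fun w hw => ?_⟩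
  let X : L := δ.rangeRestrict w
  have hXT : ∀ d, X.1 d ∈ T := fun d => hw d d.2
  refine ⟨w - s X, fun i hi => ?_, ?_⟩
  · have e1 : r i *ᵥ s X - s X = r i *ᵥ w - w := congrFun (hs' X) ⟨i, hi⟩
    rw [mulVec_sub]
    have e2 : r i *ᵥ w - r i *ᵥ s X - (w - s X) = (r i *ᵥ w - w) - (r i *ᵥ s X - s X) := by abel
    rw [← sub_eq_zero, e2, e1, sub_self]
  · rw [sub_sub_cancel]
    apply hT
    rw [norm_smul, norm_pow]
    refine lt_of_le_of_lt ?_ hk
    exact mul_le_mul hl1 (hbd X hXT) (norm_nonneg _) (by positivity)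

end Pool.Agent.Work.MP_787500_nt.EV
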