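import Mathlib
import Pool.Agent.Work.MP_787500_nt.EV.Fin
import Pool.Agent.Work.MP_787500_nt.EV.Cnt

/-!
The index of the unramified cocycles at the level 1 in the local condition of level 1 given by the cocycles whose
restriction to the inertia group is a coboundary.
-/

set_option autoImplicit false
set_option linter.unusedSectionVars false

namespace Pool.Agent.Work.MP_787500_nt.EV

open Matrix
open Pool.Agent.Work.MP_787500_nt.GP (A0 IsAct EvPow IsPow OE MN actN actQ bN bil mq lft mq_lft mq_eq mq_add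
  mq_sub mq_smul mq_eq_zero Wq Lat pr0 lamN mem_OE bil_add_left bil_add_right bil_sub_left bil_sub_right
  bil_smul_left bil_smul_right pr0_zero_of_norm actQ_mq bil_symm bN_val coe_actN d0)
open Pool.Agent.Work.MP_787500_nt.KR (FSys Smooth Z1 LocRep ZV zV)
open Pool.Agent.Work.MP_787500_nt.PA (toE)
open Pool.Agent.Work.MP_787500_nt.QL (TameF zur)

variable {E : Type*} [NormedField E] [NormedAlgebra ℚ_[2] E] {n : ℕ} {P : Type*} [Group P]
  {TP : FSys P} {χ a : P → ℤ_[2]} {σ τ : P} {q : ℕ} {I : Subgroup P} {l : OE E}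
  {t : E →ₗ[ℚ_[2]] ℚ_[2]} {T : Submodule (OE E) (Fin n → E)} {Sm pr : Matrix (Fin n) (Fin n) E}
  {r r' : P → Matrix (Fin n) (Fin n) E}

namespace PolD

variable (h : PolD TP χ a σ τ q I l t T Sm pr r r')

include h

/-- the value at `σ` of a cocycle which is a coboundary on `I` -/
theorem val_sigma {Z : P → Fin n → E} {w : Fin n → E} (hZ : ZV TP r Z)
    (hw : ∀ i ∈ I, Z i = r i *ᵥ w - w) : Z σ - (r σ *ᵥ w - w) ∈ VO I r := by
  intro i hi
  have hi' := h.conj_mem σ hi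
  have e1 : Z (i * σ) = Z i + r i *ᵥ Z σ := hZ.2 i σ
  have e2 : Z (σ * (σ⁻¹ * i * σ)) = Z σ + r σ *ᵥ Z (σ⁻¹ * i * σ) := hZ.2 _ _
  have e3 : σ * (σ⁻¹ * i * σ) = i * σ := by group
  rw [e3, e1, hw i hi, hw _ hi', mulVec_sub (r σ), ← h.conj_vec] at e2
  have e4 : r i *ᵥ (Z σ - (r σ *ᵥ w - w)) - (Z σ - (r σ *ᵥ w - w)) =
      (r i *ᵥ w - w + r i *ᵥ Z σ) - (Z σ + (r i *ᵥ (r σ *ᵥ w) - r σ *ᵥ w)) := by
    simp only [mulVec_sub]
    abel
  rw [← sub_eq_zero, e4, e2, sub_self]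

/-- the class of `l w` is fixed by `σ` -/
theorem fix_sigma {Z : P → Fin n → E} {w : Fin n → E} (hZ : ZV TP r Z)
    (hw : ∀ i ∈ I, Z i = r i *ᵥ w - w) (hσ : (l : E) • Z σ ∈ T) :
    r σ *ᵥ ((l : E) • w) - (l : E) • w ∈ TV I T r := by
  refine mem_TV.2 ⟨_, hσ, -((l : E) • (Z σ - (r σ *ᵥ w - w))),
    (VO I r).neg_mem (VO_smul _ (h.val_sigma hZ hw)), ?_⟩
  rw [mulVec_smul, ← smul_sub, ← smul_neg, ← smul_add]
  congr 1
  abel

/-- a cocycle whose values at `σ` and on `I` lie in `l⁻¹ T` -/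
theorem vals {Z : P → Fin n → E} (hZ : ZV TP r Z) (hσ : (l : E) • Z σ ∈ T)
    (hI : ∀ i ∈ I, (l : E) • Z i ∈ T) (d : P) : (l : E) • Z d ∈ T := by
  obtain ⟨r₀, hr₀, hT⟩ := h.lat.opn
  obtain ⟨W, hW, h1⟩ := hZ.1 r₀ hr₀
  obtain ⟨i, k, hk, hi⟩ := h.tame.frob d W hW
  have h2 : ∀ j : ℕ, (l : E) • Z (σ ^ j) ∈ T := by
    intro j
    induction j with
    | zero =>
      rw [pow_zero]
      exact hI 1 I.one_mem
    | succ j ih =>
      rw [pow_succ, hZ.2, smul_add, ← mulVec_smul]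
      exact T.add_mem ih (h.rep.st _ _ hσ)
  have h3 : (l : E) • Z (σ ^ i * k) ∈ T := by
    rw [hZ.2, smul_add, ← mulVec_smul]
    exact T.add_mem (h2 i) (h.rep.st _ _ (hI k hk))
  have h4 := h1 (σ ^ i * k) _ hi
  rw [mul_inv_cancel_left] at h4
  have h5 : (l : E) • (Z d - Z (σ ^ i * k)) ∈ T := by
    have := T.smul_mem l (hT _ h4)
    exact this
  have h6 := T.add_mem h5 h3
  rwa [← smul_add, sub_add_cancel] at h6

/-- coboundaries are continuous cocycles -/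
theorem cob_ZV (w : Fin n → E) : ZV TP r (fun d => r d *ᵥ w - w) := by
  refine ⟨fun ε hε => ?_, fun s u => ?_⟩
  · obtain ⟨C, hC0, hC⟩ : ∃ C : ℝ, 0 ≤ C ∧ ∀ x : Fin n → E, x ∈ T → ‖x‖ ≤ C := by
      obtain ⟨R, hR⟩ := h.lat.bdd
      exact ⟨max 0 R, le_max_left _ _, fun x hx => (hR x hx).trans (le_max_right _ _)⟩
    obtain ⟨k, hk⟩ := l_pow h.lat (C + 1) ε hε
    have hlk : ((l : E) ^ k) ≠ 0 := pow_ne_zero _ h.lat.lne
    obtain ⟨W, hW, h1⟩ := h.near' w (((l : E) ^ k)⁻¹)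
    refine ⟨W, hW, fun g u hu => ?_⟩
    have h2 : r (g * u) *ᵥ w - w - (r g *ᵥ w - w) = (l : E) ^ k • (r g *ᵥ (((l : E) ^ k)⁻¹ • (r u *ᵥ w - w))) := by
      rw [h.mul_vec, mulVec_smul, smul_smul, mul_inv_cancel₀ hlk, one_smul, mulVec_sub]
      abel
    rw [h2, norm_smul, norm_pow]
    have h3 := hC _ (h.rep.st g _ (h1 u hu))
    refine lt_of_le_of_lt (mul_le_mul_of_nonneg_left (h3.trans (by linarith : C ≤ C + 1)) (by positivity)) hk
  · show r (s * u) *ᵥ w - w = (r s *ᵥ w - w) + r s *ᵥ (r u *ᵥ w - w)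
    rw [h.mul_vec, mulVec_sub]
    abel

end PolD

/-- the relation between a cocycle of level 1 and the element of level `N` attached to it -/
def RR (h : PolD TP χ a σ τ q I l t T Sm pr r r') (N : ℕ) (y : P → MN T l 1) (x : XT h N) : Prop :=
  ∃ Z : P → Fin n → E, ∃ w x' : Fin n → E, ZV TP r Z ∧ (∀ i ∈ I, Z i = r i *ᵥ w - w) ∧
    (∀ d, (y d : Wq T) = mq T (Z d)) ∧ mq T x' = ((x : MN T l N) : Wq T) ∧
    pr *ᵥ ((l : E) • w) - pr *ᵥ x' ∈ TV I T r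

section rel

variable (h : PolD TP χ a σ τ q I l t T Sm pr r r') {N : ℕ}

theorem val_T {y : P → MN T l 1} {Z : P → Fin n → E} (hy : ∀ d, (y d : Wq T) = mq T (Z d)) (d : P) :
    (l : E) • Z d ∈ T := by
  have h1 := (y d).mem
  rw [hy, pow_one, ← mq_smul, mq_eq_zero] at h1
  exact h1

theorem RR_add {y y' : P → MN T l 1} {x x' : XT h N} (h1 : RR h N y x) (h2 : RR h N y' x') :
    RR h N (y + y') (x + x') := by
  obtain ⟨Z, w, u, a1, a2, a3, a4, a5⟩ := h1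
  obtain ⟨Z', w', u', b1, b2, b3, b4, b5⟩ := h2
  refine ⟨Z + Z', w + w', u + u', (zV TP r).add_mem a1 b1, fun i hi => ?_, fun d => ?_, ?_, ?_⟩
  · rw [Pi.add_apply, a2 i hi, b2 i hi, mulVec_add]
    abel
  · rw [Pi.add_apply, Submodule.coe_add, a3, b3, Pi.add_apply, mq_add]
  · rw [mq_add, a4, b4, XT.coe_add]
  · have e := (TV I T r).add_mem a5 b5
    have e1 : pr *ᵥ ((l : E) • (w + w')) - pr *ᵥ (u + u') =
        pr *ᵥ ((l : E) • w) - pr *ᵥ u + (pr *ᵥ ((l : E) • w') - pr *ᵥ u') := by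
      simp only [smul_add, mulVec_add]
      abel
    rw [e1]
    exact e

theorem RR_neg {y : P → MN T l 1} {x : XT h N} (h1 : RR h N y x) : RR h N (-y) (-x) := by
  obtain ⟨Z, w, u, a1, a2, a3, a4, a5⟩ := h1
  refine ⟨-Z, -w, -u, (zV TP r).neg_mem a1, fun i hi => ?_, fun d => ?_, ?_, ?_⟩
  · rw [Pi.neg_apply, a2 i hi, mulVec_neg]
    abel
  · have e : mq T (-Z d) = -mq T (Z d) := rfl
    rw [Pi.neg_apply, Submodule.coe_neg, a3, Pi.neg_apply, e]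
  · have e : mq T (-u) = -mq T u := rfl
    rw [e, a4, XT.coe_neg]
  · have e := (TV I T r).neg_mem a5
    have e1 : pr *ᵥ ((l : E) • (-w)) - pr *ᵥ (-u) = -(pr *ᵥ ((l : E) • w) - pr *ᵥ u) := by
      simp only [smul_neg, mulVec_neg]
      abel
    rw [e1]
    exact e

theorem RR_ex (hfin : ∀ w ∈ WI I T r, ∃ v ∈ VO I r, (l : E) ^ N • (w - v) ∈ T) {y : P → MN T l 1}
    {Z : P → Fin n → E} {w : Fin n → E} (hZ : ZV TP r Z) (hw : ∀ i ∈ I, Z i = r i *ᵥ w - w)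
    (hy : ∀ d, (y d : Wq T) = mq T (Z d)) : ∃ x : XT h N, RR h N y x := by
  have h1 : (l : E) • w ∈ WI I T r := by
    intro i hi
    rw [mulVec_smul, ← smul_sub, ← hw i hi]
    exact val_T hy i
  obtain ⟨v, hv, h2⟩ := hfin _ h1
  obtain ⟨x, hx⟩ := XT.ex h ((WI I T r).sub_mem h1 (h.VO_le hv)) h2
  refine ⟨x, Z, w, _, hZ, hw, hy, hx, ?_⟩
  rw [← mulVec_sub, sub_sub_cancel]
  exact Submodule.mem_sup_right (h.VO_pr hv)

/-- a cocycle of level 1 is unramified if and only if the attached element is in `K0 + l X` -/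
theorem RR_zur [FiniteDimensional ℚ_[2] E]
    (hfin : ∀ w ∈ WI I T r, ∃ v ∈ VO I r, (l : E) ^ N • (w - v) ∈ T)
    (hact : IsAct (actN l 1 r h.rep.st)) {y : P → MN T l 1} {x : XT h N} (h1 : RR h N y x) :
    y ∈ zur TP I hact ↔ x ∈ K0 h N ⊔ lX (OE E) (XT h N) l := by
  obtain ⟨Z, w, x', hZ, hw, hy, hx, hxw⟩ := h1
  have hl0 := h.lat.lne
  have hσ := h.fix_sigma hZ hw (val_T hy σ)
  constructor
  · rintro ⟨-, m, hm⟩
    have hm1 : (l : E) • lft (m : Wq T) ∈ T := by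
      have := m.lft_mem
      rwa [pow_one] at this
    -- `w - m` is in `WI`
    have hg : w - lft (m : Wq T) ∈ WI I T r := by
      intro i hi
      have e1 := congrArg (fun m : MN T l 1 => (m : Wq T)) (hm i hi)
      have e2 : (y i : Wq T) = mq T (r i *ᵥ lft (m : Wq T)) - mq T (lft (m : Wq T)) := by
        rw [mq_lft (m : Wq T)]
        exact e1
      rw [hy, hw i hi, ← mq_sub, mq_eq] at e2
      have e3 : r i *ᵥ (w - lft (m : Wq T)) - (w - lft (m : Wq T)) =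
          r i *ᵥ w - w - (r i *ᵥ lft (m : Wq T) - lft (m : Wq T)) := by
        rw [mulVec_sub]
        abel
      rw [e3]
      exact e2
    obtain ⟨v, hv, hv1⟩ := hfin _ hg
    obtain ⟨z, hz⟩ := XT.ex h ((WI I T r).sub_mem hg (h.VO_le hv)) hv1
    rw [Submodule.mem_sup]
    refine ⟨x - l • z, ?_, l • z, mem_lX.2 ⟨z, rfl⟩, sub_add_cancel _ _⟩
    have e4 : mq T (x' - (l : E) • (w - lft (m : Wq T) - v)) =
        (((x - l • z : XT h N) : MN T l N) : Wq T) := by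
      rw [mq_sub, mq_smul, hx, hz, XT.coe_sub, XT.coe_smul]
    rw [mem_K0 e4]
    have e5 : pr *ᵥ (x' - (l : E) • (w - lft (m : Wq T) - v)) =
        -(pr *ᵥ ((l : E) • w) - pr *ᵥ x') + pr *ᵥ ((l : E) • lft (m : Wq T)) + pr *ᵥ ((l : E) • v) := by
      simp only [mulVec_sub, smul_sub]
      abel
    rw [e5]
    exact (TV I T r).add_mem ((TV I T r).add_mem ((TV I T r).neg_mem hxw)
      (Submodule.mem_sup_left (h.pT _ hm1))) (Submodule.mem_sup_right (h.VO_pr (VO_smul _ hv)))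
  · intro hxJ
    refine ⟨KR.zv_level h.lat h.rep 1 hZ hy, ?_⟩
    obtain ⟨k, hk, z', hz', e⟩ := Submodule.mem_sup.1 hxJ
    obtain ⟨z, rfl⟩ := mem_lX.1 hz'
    -- `pr (l w) ∈ TV + l pr z`
    have hzW := z.mem
    have hz0 := mq_lft ((z : MN T l N) : Wq T)
    set z₁ := lft ((z : MN T l N) : Wq T) with hz₁
    have hk1 : mq T (x' - (l : E) • z₁) = ((k : MN T l N) : Wq T) := by
      rw [mq_sub, mq_smul, hx, hz0, ← e, XT.coe_add, XT.coe_smul, add_sub_cancel_right]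
    rw [mem_K0 hk1] at hk
    have h2 : pr *ᵥ ((l : E) • w) - (l : E) • (pr *ᵥ z₁) ∈ TV I T r := by
      have e1 : pr *ᵥ ((l : E) • w) - (l : E) • (pr *ᵥ z₁) =
          (pr *ᵥ ((l : E) • w) - pr *ᵥ x') + pr *ᵥ (x' - (l : E) • z₁) := by
        rw [mulVec_sub, mulVec_smul pr (l : E) z₁]
        abel
      rw [e1]
      exact (TV I T r).add_mem hxw hk
    -- the other component
    have h3 : (l : E) • w - pr *ᵥ ((l : E) • w) - (l : E) • (r σ⁻¹ *ᵥ (pr *ᵥ z₁)) ∈ TV I T r := by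
      have e1 := h.TV_act σ⁻¹ (h.TV_pr hσ)
      rw [mulVec_sub, h.pσ, mulVec_sub, h.inv_vec'] at e1
      have e2 := (TV I T r).add_mem e1 (h.TV_act σ⁻¹ h2)
      have e3 : (l : E) • w - pr *ᵥ ((l : E) • w) - r σ⁻¹ *ᵥ (pr *ᵥ ((l : E) • w)) +
          r σ⁻¹ *ᵥ (pr *ᵥ ((l : E) • w) - (l : E) • (pr *ᵥ z₁)) =
          (l : E) • w - pr *ᵥ ((l : E) • w) - (l : E) • (r σ⁻¹ *ᵥ (pr *ᵥ z₁)) := by
        rw [mulVec_sub, mulVec_smul (r σ⁻¹) (l : E)]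
        abel
      rw [e3] at e2
      exact e2
    have h4 : (l : E) • w - (l : E) • (pr *ᵥ z₁ + r σ⁻¹ *ᵥ (pr *ᵥ z₁)) ∈ TV I T r := by
      have e1 := (TV I T r).add_mem h2 h3
      have e2 : pr *ᵥ ((l : E) • w) - (l : E) • (pr *ᵥ z₁) +
          ((l : E) • w - pr *ᵥ ((l : E) • w) - (l : E) • (r σ⁻¹ *ᵥ (pr *ᵥ z₁))) =
          (l : E) • w - (l : E) • (pr *ᵥ z₁ + r σ⁻¹ *ᵥ (pr *ᵥ z₁)) := by
        rw [smul_add]
        abel
      rw [e2] at e1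
      exact e1
    obtain ⟨u, hu, v, hv, e5⟩ := mem_TV.1 h4
    -- `w = l⁻¹ u + g` with `g ∈ WI`
    have hg : w - (l : E)⁻¹ • u ∈ WI I T r := by
      have e6 : w - (l : E)⁻¹ • u = (l : E)⁻¹ • v + (pr *ᵥ z₁ + r σ⁻¹ *ᵥ (pr *ᵥ z₁)) := by
        have e7 : (l : E)⁻¹ • (u + v) = w - (pr *ᵥ z₁ + r σ⁻¹ *ᵥ (pr *ᵥ z₁)) := by
          rw [e5, ← smul_sub, smul_smul, inv_mul_cancel₀ hl0, one_smul]
        rw [smul_add] at e7
        rw [eq_sub_iff_add_eq] at e7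
        rw [← e7]
        abel
      rw [e6]
      exact (WI I T r).add_mem (h.VO_le (VO_smul _ hv))
        ((WI I T r).add_mem (h.WI_pr hzW) (h.WI_act _ (h.WI_pr hzW)))
    have hu1 : l ^ 1 • mq T ((l : E)⁻¹ • u) = 0 := by
      rw [pow_one, ← mq_smul, mq_eq_zero, smul_smul, mul_inv_cancel₀ hl0, one_smul]
      exact hu
    refine ⟨⟨mq T ((l : E)⁻¹ • u), (Submodule.mem_torsionBy_iff _ _).2 hu1⟩, fun i hi => ?_⟩
    apply Subtype.ext
    have e8 : ((d0 (actN l 1 r h.rep.st) (⟨mq T ((l : E)⁻¹ • u),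
        (Submodule.mem_torsionBy_iff _ _).2 hu1⟩ : MN T l 1) i : MN T l 1) : Wq T) =
        mq T (r i *ᵥ ((l : E)⁻¹ • u)) - mq T ((l : E)⁻¹ • u) := by
      rw [← actQ_mq (h.rep.st i)]
      rfl
    rw [e8, hy, hw i hi, ← mq_sub, mq_eq]
    have e9 := hg i hi
    have e10 : r i *ᵥ (w - (l : E)⁻¹ • u) - (w - (l : E)⁻¹ • u) =
        r i *ᵥ w - w - (r i *ᵥ ((l : E)⁻¹ • u) - (l : E)⁻¹ • u) := by
      rw [mulVec_sub]
      abel
    rw [← e10]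
    exact e9

/-- the attached element is fixed by the square of the Frobenius element, modulo `K0` -/
theorem RR_fix {y : P → MN T l 1} {x : XT h N} (h1 : RR h N y x) :
    x ∈ (K0 h N).comap (hN h N - LinearMap.id) := by
  obtain ⟨Z, w, x', hZ, hw, hy, hx, hxw⟩ := h1
  have hσ := h.fix_sigma hZ hw (val_T hy σ)
  show hN h N x - x ∈ K0 h N
  have e : mq T (r σ *ᵥ (r σ *ᵥ x') - x') = (((hN h N x - x : XT h N) : MN T l N) : Wq T) := by
    rw [mq_sub, XT.coe_sub, hN_val h N x hx, hx]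
  rw [mem_K0 e]
  have e1 : pr *ᵥ (r σ *ᵥ (r σ *ᵥ x') - x') =
      pr *ᵥ (r σ *ᵥ (r σ *ᵥ ((l : E) • w) - (l : E) • w) + (r σ *ᵥ ((l : E) • w) - (l : E) • w)) -
        (r σ *ᵥ (r σ *ᵥ (pr *ᵥ ((l : E) • w) - pr *ᵥ x')) - (pr *ᵥ ((l : E) • w) - pr *ᵥ x')) := by
    simp only [mulVec_sub, mulVec_add, h.pσσ]
    abel
  rw [e1]
  exact (TV I T r).sub_mem (h.TV_pr ((TV I T r).add_mem (h.TV_act σ hσ) hσ))
    ((TV I T r).sub_mem (h.TV_act σ (h.TV_act σ hxw)) hxw)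

/-- an element fixed by the square of the Frobenius element comes from a cocycle -/
theorem RR_lift {x : XT h N} (h1 : x ∈ (K0 h N).comap (hN h N - LinearMap.id)) :
    ∃ y : P → MN T l 1, RR h N y x := by
  have hl0 := h.lat.lne
  have h2 : hN h N x - x ∈ K0 h N := h1
  have hx := mq_lft ((x : MN T l N) : Wq T)
  have hxW := x.mem
  set x' := lft ((x : MN T l N) : Wq T) with hx'
  have e : mq T (r σ *ᵥ (r σ *ᵥ x') - x') = (((hN h N x - x : XT h N) : MN T l N) : Wq T) := by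
    rw [mq_sub, XT.coe_sub, hN_val h N x hx, hx]
  rw [mem_K0 e, mulVec_sub, h.pσσ] at h2
  obtain ⟨y₀, hy₀⟩ : ∃ y₀, y₀ = pr *ᵥ x' + r σ⁻¹ *ᵥ (pr *ᵥ x') := ⟨_, rfl⟩
  have hyW : y₀ ∈ WI I T r := by
    rw [hy₀]
    exact (WI I T r).add_mem (h.WI_pr hxW) (h.WI_act _ (h.WI_pr hxW))
  have hpy : pr *ᵥ y₀ = pr *ᵥ x' := by
    rw [hy₀, mulVec_add, h.pp, h.pσ', h.pp, sub_self, mulVec_zero, add_zero]
  have hyσ : r σ *ᵥ y₀ - y₀ ∈ TV I T r := by
    have e1 := h.TV_act σ⁻¹ h2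
    rw [mulVec_sub, h.inv_vec'] at e1
    have e2 : r σ *ᵥ y₀ - y₀ = r σ *ᵥ (pr *ᵥ x') - r σ⁻¹ *ᵥ (pr *ᵥ x') := by
      rw [hy₀, mulVec_add, h.inv_vec]
      abel
    rw [e2]
    exact e1
  obtain ⟨u, hu, v₁, hv₁, e3⟩ := mem_TV.1 hyσ
  obtain ⟨X', hX1, hX2, hX3⟩ := h.ur (-((l : E)⁻¹ • v₁)) ((VO I r).neg_mem (VO_smul _ hv₁))
  obtain ⟨w, hw⟩ : ∃ w, w = (l : E)⁻¹ • y₀ := ⟨_, rfl⟩
  have hlw : (l : E) • w = y₀ := by rw [hw, smul_smul, mul_inv_cancel₀ hl0, one_smul]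
  let Z : P → Fin n → E := fun d => (r d *ᵥ w - w) + X' d
  have hZ : ZV TP r Z := (zV TP r).add_mem (h.cob_ZV w) hX1
  have hZI : ∀ i ∈ I, Z i = r i *ᵥ w - w := fun i hi => by
    show (r i *ᵥ w - w) + X' i = _
    rw [hX2 i hi, add_zero]
  have hZσ : (l : E) • Z σ ∈ T := by
    have e4 : (l : E) • Z σ = u := by
      show (l : E) • ((r σ *ᵥ w - w) + X' σ) = u
      rw [smul_add, smul_sub, ← mulVec_smul, hlw, hX3, smul_neg, smul_smul, mul_inv_cancel₀ hl0,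
        one_smul, ← e3]
      abel
    rw [e4]
    exact hu
  have hZT : ∀ d, (l : E) • Z d ∈ T := h.vals hZ hZσ fun i hi => by
    rw [hZI i hi, smul_sub, ← mulVec_smul, hlw]
    exact hyW i hi
  refine ⟨fun d => ⟨mq T (Z d), (Submodule.mem_torsionBy_iff _ _).2 (by
    rw [pow_one, ← mq_smul, mq_eq_zero]
    exact hZT d)⟩, Z, w, x', hZ, hZI, fun d => rfl, hx, ?_⟩
  rw [hlw, hpy, sub_self]
  exact (TV I T r).zero_mem

end rel

/-- THE INDEX of the unramified cocycles of level 1 -/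
theorem ext_card [FiniteDimensional ℚ_[2] E] (h : PolD TP χ a σ τ q I l t T Sm pr r r') {N : ℕ}
    (hfin : ∀ w ∈ WI I T r, ∃ v ∈ VO I r, (l : E) ^ N • (w - v) ∈ T)
    (hact : IsAct (actN l 1 r h.rep.st)) {L : Submodule E (P → Fin n → E)}
    (hL : ∀ X, X ∈ L ↔ ZV TP r X ∧ ∃ w, ∀ i ∈ I, X i = r i *ᵥ w - w) :
    (zur TP I hact ⊓ (lamN T l 1 L).toAddSubgroup).relIndex (lamN T l 1 L).toAddSubgroup =
      cI (O := OE E) (X := XT h N) (K0 h N ⊔ lX (OE E) (XT h N) l)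
        ((K0 h N).comap (hN h N - LinearMap.id)) := by
  have hmem : ∀ {y : P → MN T l 1} {x : XT h N}, RR h N y x → y ∈ (lamN T l 1 L).toAddSubgroup := by
    rintro y x ⟨Z, w, x', hZ, hw, hy, -, -⟩
    exact ⟨Z, (hL Z).2 ⟨hZ, w, hw⟩, hy⟩
  refine rel_card (O := OE E) (X := XT h N) _ _ (RR h N) (RR_add h) (RR_neg h) ?_ hmem ?_ ?_ ?_
  · rintro y ⟨Z, hZ, hy⟩
    obtain ⟨hZ1, w, hw⟩ := (hL Z).1 hZ
    exact RR_ex h hfin hZ1 hw hy
  · intro y x hyx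
    rw [AddSubgroup.mem_inf]
    exact ⟨fun hy => (RR_zur h hfin hact hyx).1 hy.1, fun hx => ⟨(RR_zur h hfin hact hyx).2 hx, hmem hyx⟩⟩
  · intro y x hyx
    exact Submodule.mem_sup_left (RR_fix h hyx)
  · intro x hx
    exact RR_lift h hx

end Pool.Agent.Work.MP_787500_nt.EV
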