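import Mathlib
import Pool.Agent.Work.MP_787500_nt.EV.Ext

/-!
PARITY AT AN INERT PLACE: the index of the unramified cocycles of level 1 in the local condition of level 1 given by
the cocycles whose restriction to the inertia group is a coboundary.
-/

set_option autoImplicit false
set_option linter.unusedSectionVars false

namespace Pool.Agent.Work.MP_787500_nt.EV

open Matrix
open Pool.Agent.Work.MP_787500_nt.GP (A0 IsAct EvPow IsPow OE MN actN actQ lft mq Wq Lat lamN)
open Pool.Agent.Work.MP_787500_nt.KR (FSys Smooth Z1 LocRep ZV zV)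
open Pool.Agent.Work.MP_787500_nt.QL (TameF zur)

variable {E : Type*} [NormedField E] [NormedAlgebra ℚ_[2] E] {n : ℕ} {P : Type*} [Group P]
  {TP : FSys P} {χ a : P → ℤ_[2]} {σ τ : P} {q : ℕ} {I : Subgroup P} {l : OE E}
  {t : E →ₗ[ℚ_[2]] ℚ_[2]} {T : Submodule (OE E) (Fin n → E)} {Sm pr : Matrix (Fin n) (Fin n) E}
  {r r' : P → Matrix (Fin n) (Fin n) E}

/-- (F): the index of the unramified cocycles of level 1, times the number of elements of level 1 of the first part
fixed by `I`, times `q ^ dim V₁^I`, is an even power of the number `q` of elements of the residue field. -/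
theorem inert_even [FiniteDimensional ℚ_[2] E] [IsLocalRing (OE E)]
    (h : PolD TP χ a σ τ q I l t T Sm pr r r') (hact : IsAct (actN l 1 r h.rep.st))
    {L : Submodule E (P → Fin n → E)}
    (hL : ∀ X, X ∈ L ↔ ZV TP r X ∧ ∃ w, ∀ i ∈ I, X i = r i *ᵥ w - w) :
    EvPow (Nat.card (IsLocalRing.ResidueField (OE E)))
      ((zur TP I hact ⊓ (lamN T l 1 L).toAddSubgroup).relIndex (lamN T l 1 L).toAddSubgroup *
        Nat.card (X1 h) *
        Nat.card (IsLocalRing.ResidueField (OE E)) ^ Module.finrank E (V1 I pr r)) := by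
  have hres : Finite (IsLocalRing.ResidueField (OE E)) := GP.res_finite
  obtain ⟨N, hN1, hfin⟩ := exists_N h
  have hcore := core' (O := OE E) (X := XT h N) l (pN h N) (pN_bal h N) (K0 h N) (K0_iff h hfin)
    (hN h N) (hN_surj h N) (pN_swap h N)
  rw [ext_card h hfin hact hL, cnt h hN1]
  set q' := Nat.card (IsLocalRing.ResidueField (OE E)) with hq'
  set d := Module.finrank E (V1 I pr r) with hd
  have e : cI (O := OE E) (X := XT h N) (K0 h N ⊔ lX (OE E) (XT h N) l)
        ((K0 h N).comap (hN h N - LinearMap.id)) *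
      (cQ (O := OE E) (X := XT h N) (K0 h N ⊔ lX (OE E) (XT h N) l) * q' ^ d) * q' ^ d =
      (cQ (O := OE E) (X := XT h N) (K0 h N ⊔ lX (OE E) (XT h N) l) *
        cI (O := OE E) (X := XT h N) (K0 h N ⊔ lX (OE E) (XT h N) l)
          ((K0 h N).comap (hN h N - LinearMap.id))) * (q' ^ d) ^ 2 := by ring
  rw [e]
  exact GP.evPow_mul hcore (GP.evPow_sq ⟨d, rfl⟩)

end Pool.Agent.Work.MP_787500_nt.EV
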