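import Mathlib
import Pool.Agent.Work.MP_787500_nt.EV.Main
import Pool.Agent.Work.MP_787500_nt.QV.App

/-!
PARITY AT AN INERT PLACE for the representation `V × V`.
-/

set_option autoImplicit false
set_option linter.unusedSectionVars false

namespace Pool.Agent.Work.MP_787500_nt.EV

open Matrix
open Pool.Agent.Work.MP_787500_nt.GP (A0 IsAct EvPow IsPow OE MN actN actQ bN bil mq lft mq_lft mq_eq mq_add
  mq_sub mq_smul mq_eq_zero Wq Lat pr0 lamN mem_OE bil_add_left bil_add_right bil_sub_left bil_sub_right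
  bil_smul_left bil_smul_right pr0_zero_of_norm actQ_mq bil_symm bN_val coe_actN)
open Pool.Agent.Work.MP_787500_nt.KR (FSys Smooth Z1 LocRep ZV zV)
open Pool.Agent.Work.MP_787500_nt.PA (toE)
open Pool.Agent.Work.MP_787500_nt.QL (TameF zur)
open Pool.Agent.Work.MP_787500_nt.QS (Two)
open Pool.Agent.Work.MP_787500_nt.QV

variable {E : Type*} [NormedField E] [NormedAlgebra ℚ_[2] E] {n : ℕ}

/-- the first projector -/
def pr1 (E : Type*) [NormedField E] (n : ℕ) : Matrix (Fin (n + n)) (Fin (n + n)) E :=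
  (Matrix.fromBlocks 1 0 0 0).submatrix finSumFinEquiv.symm finSumFinEquiv.symm

@[simp] theorem v1_pr1 (v : Fin (n + n) → E) : v1 (pr1 E n *ᵥ v) = v1 v := by
  show v1 (blk 1 0 0 0 *ᵥ v) = _
  rw [v1_blk, Matrix.one_mulVec, Matrix.zero_mulVec, add_zero]

@[simp] theorem v2_pr1 (v : Fin (n + n) → E) : v2 (pr1 E n *ᵥ v) = 0 := by
  show v2 (blk 1 0 0 0 *ᵥ v) = _
  rw [v2_blk, Matrix.zero_mulVec, Matrix.zero_mulVec, add_zero]

theorem v1_sub (v w : Fin (n + n) → E) : v1 (v - w) = v1 v - v1 w := rfl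

theorem v2_sub (v w : Fin (n + n) → E) : v2 (v - w) = v2 v - v2 w := rfl

theorem v1_neg (v : Fin (n + n) → E) : v1 (-v) = -v1 v := rfl

theorem v2_neg (v : Fin (n + n) → E) : v2 (-v) = -v2 v := rfl

theorem bil_zero_left (b : Matrix (Fin n) (Fin n) E) (x : Fin n → E) : bil b 0 x = 0 := by
  rw [bil, zero_dotProduct]

theorem bil_zero_right (b : Matrix (Fin n) (Fin n) E) (x : Fin n → E) : bil b x 0 = 0 := by
  rw [bil, mulVec_zero, dotProduct_zero]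

variable {G Γ : Type*} [Group G] [Group Γ] {e : G →* Γ} {c : Γ} {κ : G →* G}
  {ρ : G → Matrix (Fin n) (Fin n) E} {l : OE E} {t : E →ₗ[ℚ_[2]] ℚ_[2]}
  {T : Submodule (OE E) (Fin n → E)} {b : Matrix (Fin n) (Fin n) E}
  {P : Type*} [Group P] {TP : FSys P} {jp : P →* Γ} {χ a : P → ℤ_[2]} {σ τ : P} {q : ℕ} {I : Subgroup P}

/-- the elements of inertia preserve the two components -/
theorem rho2_in (X : Two e c κ) {g : Γ} (hg : ∃ k, e k = g) (v : Fin (n + n) → E) :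
    ∃ k, e k = g ∧ v1 (rho2 e c κ ρ g *ᵥ v) = ρ k *ᵥ v1 v ∧ v2 (rho2 e c κ ρ g *ᵥ v) = ρ (κ k) *ᵥ v2 v := by
  obtain ⟨k, rfl⟩ := hg
  exact ⟨k, rfl, v1_rho X k v, v2_rho X k v⟩

theorem rho2_out (X : Two e c κ) {g : Γ} (hg : ¬∃ k, e k = g) (v : Fin (n + n) → E) :
    ∃ k, e k * c = g ∧ v1 (rho2 e c κ ρ g *ᵥ v) = ρ k *ᵥ v2 v ∧ v2 (rho2 e c κ ρ g *ᵥ v) = ρ (κ k) *ᵥ v1 v := by
  rcases X.cases g with ⟨k, rfl⟩ | ⟨k, rfl⟩
  · exact absurd ⟨k, rfl⟩ hg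
  · exact ⟨k, rfl, v1_rhoc X k v, v2_rhoc X k v⟩

/-- the polarized data of `V × V` at an inert place -/
theorem polD_two (X : Two e c κ) (hl : Lat b l t T)
    (hT : TameF TP χ a σ τ q I)
    (hr : LocRep TP χ (T2 T) (blk 0 b b 0) (fun d => rho2 e c κ ρ (jp d))
      (fun d => J2 E n * rho2 e c κ ρ (jp d) * J2 E n))
    (hI : ∀ i ∈ I, ∃ g, e g = jp i) (hσ : ¬∃ g, e g = jp σ)
    (hur : ∀ v : Fin (n + n) → E, (∀ i ∈ I, rho2 e c κ ρ (jp i) *ᵥ v = v) →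
      ∃ X, ZV TP (fun d => rho2 e c κ ρ (jp d)) X ∧ (∀ i ∈ I, X i = 0) ∧ X σ = v) :
    PolD TP χ a σ τ q I l t (T2 T) (blk 0 b b 0) (pr1 E n)
      (fun d => rho2 e c κ ρ (jp d)) (fun d => J2 E n * rho2 e c κ ρ (jp d) * J2 E n) where
  tame := hT
  lat := lat2 hl
  rep := hr
  rI i hi := by
    refine mat_ext fun v => ?_
    rw [← mulVec_mulVec, ← mulVec_mulVec]
    obtain ⟨k, hk, h1, h2⟩ := rho2_in (ρ := ρ) X (hI i hi) (J2 E n *ᵥ v)
    obtain ⟨k', hk', h1', h2'⟩ := rho2_in (ρ := ρ) X (hI i hi) v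
    have hkk : k = k' := X.inj (hk.trans hk'.symm)
    subst hkk
    apply ap_ext
    · rw [v1_J2, h1, h1', v1_J2, mulVec_neg, neg_neg]
    · rw [v2_J2, h2, h2', v2_J2]
  rσ := by
    refine mat_ext fun v => ?_
    rw [← mulVec_mulVec, ← mulVec_mulVec, neg_mulVec]
    obtain ⟨k, hk, h1, h2⟩ := rho2_out (ρ := ρ) X hσ (J2 E n *ᵥ v)
    obtain ⟨k', hk', h1', h2'⟩ := rho2_out (ρ := ρ) X hσ v
    have hkk : k = k' := X.inj (mul_right_cancel (hk.trans hk'.symm))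
    subst hkk
    apply ap_ext
    · rw [v1_J2, h1, v1_neg, h1', v2_J2]
    · rw [v2_J2, h2, v2_neg, h2', v1_J2, mulVec_neg]
  pp v := by
    apply ap_ext
    · rw [v1_pr1]
    · rw [v2_pr1, v2_pr1]
  pT v hv := by
    rw [mem_T2, v1_pr1, v2_pr1]
    exact ⟨hv.1, T.zero_mem⟩
  iso v w := by
    rw [bil_S, v1_pr1, v2_pr1, v1_pr1, v2_pr1, bil_zero_left, bil_zero_right, add_zero]
  iso' v w := by
    rw [bil_S, v1_sub, v2_sub, v1_sub, v2_sub, v1_pr1, v2_pr1, v1_pr1, v2_pr1, sub_self, sub_self,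
      bil_zero_left, bil_zero_right, add_zero]
  pI i hi v := by
    obtain ⟨k, hk, h1, h2⟩ := rho2_in (ρ := ρ) X (hI i hi) (pr1 E n *ᵥ v)
    obtain ⟨k', hk', h1', h2'⟩ := rho2_in (ρ := ρ) X (hI i hi) v
    have hkk : k = k' := X.inj (hk.trans hk'.symm)
    subst hkk
    apply ap_ext
    · rw [v1_pr1, h1, h1', v1_pr1]
    · rw [v2_pr1, h2, v2_pr1, mulVec_zero]
  pσ v := by
    obtain ⟨k, hk, h1, h2⟩ := rho2_out (ρ := ρ) X hσ (v - pr1 E n *ᵥ v)
    obtain ⟨k', hk', h1', h2'⟩ := rho2_out (ρ := ρ) X hσ v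
    have hkk : k = k' := X.inj (mul_right_cancel (hk.trans hk'.symm))
    subst hkk
    apply ap_ext
    · rw [v1_pr1, h1, h1', v2_sub, v2_pr1, sub_zero]
    · rw [v2_pr1, h2, v1_sub, v1_pr1, sub_self, mulVec_zero]
  ur := hur

/-- the vectors of `V` fixed by inertia -/
def VI (e : G →* Γ) (jp : P →* Γ) (I : Subgroup P) (ρ : G → Matrix (Fin n) (Fin n) E) :
    Submodule E (Fin n → E) where
  carrier := {v | ∀ g, (∃ i ∈ I, e g = jp i) → ρ g *ᵥ v = v}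
  add_mem' := fun hv hw g hg => by rw [mulVec_add, hv g hg, hw g hg]
  zero_mem' := fun g _ => mulVec_zero _
  smul_mem' := fun c v hv g hg => by rw [mulVec_smul, hv g hg]

theorem mem_VI {v : Fin n → E} : v ∈ VI e jp I ρ ↔ ∀ g, (∃ i ∈ I, e g = jp i) → ρ g *ᵥ v = v := Iff.rfl

theorem finrank_V1 (X : Two e c κ) (hI : ∀ i ∈ I, ∃ g, e g = jp i) :
    Module.finrank E (V1 I (pr1 E n) (fun d => rho2 e c κ ρ (jp d))) =
      Module.finrank E (VI e jp I ρ) := by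
  have key : ∀ v : Fin (n + n) → E, v ∈ V1 I (pr1 E n) (fun d => rho2 e c κ ρ (jp d)) ↔
      v1 v ∈ VI e jp I ρ ∧ v2 v = 0 := by
    intro v
    constructor
    · rintro ⟨h1, h2⟩
      refine ⟨fun g hg => ?_, ?_⟩
      · obtain ⟨i, hi, hgi⟩ := hg
        have h3 := h1 i hi
        beta_reduce at h3
        rw [← hgi] at h3
        rw [← v1_rho X, h3]
      · rw [← h2, v2_pr1]
    · rintro ⟨h1, h2⟩
      have h3 : pr1 E n *ᵥ v = v := by
        apply ap_ext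
        · rw [v1_pr1]
        · rw [v2_pr1, h2]
      refine ⟨fun i hi => ?_, h3⟩
      obtain ⟨k, hk, h4, h5⟩ := rho2_in (ρ := ρ) X (hI i hi) v
      apply ap_ext
      · rw [h4]
        exact h1 k ⟨i, hi, hk⟩
      · rw [h5, h2, mulVec_zero]
  refine LinearEquiv.finrank_eq
    { toFun := fun v => ⟨v1 v.1, ((key v.1).1 v.2).1⟩
      map_add' := fun v w => rfl
      map_smul' := fun c v => rfl
      invFun := fun v => ⟨ap v.1 0, (key _).2 ⟨by rw [v1_ap]; exact v.2, by rw [v2_ap]⟩⟩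
      left_inv := fun v => Subtype.ext (ap_ext (by rw [v1_ap]) (by
        rw [v2_ap]
        exact ((key v.1).1 v.2).2.symm))
      right_inv := fun v => Subtype.ext (by
        show v1 (ap v.1 0) = _
        rw [v1_ap]) }

/-- the elements of level 1 fixed by inertia -/
def MI (e : G →* Γ) (jp : P →* Γ) (I : Subgroup P) {ρ : G → Matrix (Fin n) (Fin n) E}
    {T : Submodule (OE E) (Fin n → E)} (l : OE E) (hst : ∀ d, ∀ x ∈ T, ρ d *ᵥ x ∈ T) :
    Set (MN T l 1) := {m | ∀ g, (∃ i ∈ I, e g = jp i) → actN l 1 ρ hst g m = m}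

theorem card_X1 (X : Two e c κ) (hI : ∀ i ∈ I, ∃ g, e g = jp i)
    (hst : ∀ d, ∀ x ∈ T, ρ d *ᵥ x ∈ T)
    (h : PolD TP χ a σ τ q I l t (T2 T) (blk 0 b b 0) (pr1 E n)
      (fun d => rho2 e c κ ρ (jp d)) (fun d => J2 E n * rho2 e c κ ρ (jp d) * J2 E n)) :
    Nat.card (X1 h) = Nat.card (MI e jp I l hst) := by
  have key : ∀ m : MN (T2 T) l 1, m ∈ X1 h ↔
      (isoN T l 1 m).1 ∈ MI e jp I l hst ∧ (isoN T l 1 m).2 = 0 := by
    intro m
    have h0 := mq_lft (m : Wq (T2 T))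
    rw [mem_X1 h0]
    set v := lft (m : Wq (T2 T)) with hv
    have h1 := iso_one h0.symm
    have h2 := iso_two h0.symm
    have e1 : (isoN T l 1 m).2 = 0 ↔ v2 v ∈ T := by
      rw [← mq_eq_zero, ← h2]
      exact ⟨fun h => by rw [h]; rfl, fun h => Subtype.ext h⟩
    have e2 : v - pr1 E n *ᵥ v ∈ T2 T ↔ v2 v ∈ T := by
      rw [mem_T2, v1_sub, v2_sub, v1_pr1, v2_pr1, sub_self, sub_zero]
      exact ⟨fun h => h.2, fun h => ⟨T.zero_mem, h⟩⟩
    have e3 : (isoN T l 1 m).1 ∈ MI e jp I l hst ↔ ∀ g, (∃ i ∈ I, e g = jp i) → ρ g *ᵥ v1 v - v1 v ∈ T := by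
      refine forall_congr' fun g => forall_congr' fun _ => ?_
      rw [← mq_eq, ← actQ_mq (hst g), ← h1]
      exact ⟨fun h => congrArg (fun m : MN T l 1 => (m : Wq T)) h, fun h => Subtype.ext h⟩
    rw [e1, e2, e3]
    refine and_congr_left fun hv2 => ?_
    constructor
    · rintro hw g ⟨i, hi, hgi⟩
      have h3 := (hw i hi).1
      have h4 : v1 (rho2 e c κ ρ (jp i) *ᵥ v - v) = ρ g *ᵥ v1 v - v1 v := by
        rw [← hgi, v1_sub, v1_rho X]
      rw [← h4]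
      exact h3
    · intro hw i hi
      obtain ⟨k, hk, h4, h5⟩ := rho2_in (ρ := ρ) X (hI i hi) v
      refine ⟨?_, ?_⟩
      · show v1 (rho2 e c κ ρ (jp i) *ᵥ v - v) ∈ T
        rw [v1_sub, h4]
        exact hw k ⟨i, hi, hk⟩
      · show v2 (rho2 e c κ ρ (jp i) *ᵥ v - v) ∈ T
        rw [v2_sub, h5]
        exact T.sub_mem (hst _ _ hv2) hv2
  refine Nat.card_congr ⟨fun m => ⟨(isoN T l 1 m.1).1, ((key m.1).1 m.2).1⟩,
    fun m => ⟨(isoN T l 1).symm (m.1, 0), (key _).2 (by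
      rw [LinearEquiv.apply_symm_apply]
      exact ⟨m.2, rfl⟩)⟩, fun m => Subtype.ext ?_, fun m => Subtype.ext ?_⟩
  · show (isoN T l 1).symm ((isoN T l 1 m.1).1, 0) = m.1
    rw [← ((key m.1).1 m.2).2, Prod.mk.eta, LinearEquiv.symm_apply_apply]
  · show (isoN T l 1 ((isoN T l 1).symm (m.1, 0))).1 = m.1
    rw [LinearEquiv.apply_symm_apply]

/-- (F) FOR `V × V`: parity at an inert place. -/
theorem inert_two [FiniteDimensional ℚ_[2] E] [IsLocalRing (OE E)] (X : Two e c κ) (hl : Lat b l t T)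
    (hst : ∀ d, ∀ x ∈ T, ρ d *ᵥ x ∈ T)
    (hT : TameF TP χ a σ τ q I)
    (hr : LocRep TP χ (T2 T) (blk 0 b b 0) (fun d => rho2 e c κ ρ (jp d))
      (fun d => J2 E n * rho2 e c κ ρ (jp d) * J2 E n))
    (hI : ∀ i ∈ I, ∃ g, e g = jp i) (hσ : ¬∃ g, e g = jp σ)
    (hur : ∀ v : Fin (n + n) → E, (∀ i ∈ I, rho2 e c κ ρ (jp i) *ᵥ v = v) →
      ∃ X, ZV TP (fun d => rho2 e c κ ρ (jp d)) X ∧ (∀ i ∈ I, X i = 0) ∧ X σ = v)
    (hact : IsAct (actN l 1 (fun d => rho2 e c κ ρ (jp d)) hr.st))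
    {L : Submodule E (P → Fin (n + n) → E)}
    (hL : ∀ X, X ∈ L ↔ ZV TP (fun d => rho2 e c κ ρ (jp d)) X ∧
      ∃ w, ∀ i ∈ I, X i = rho2 e c κ ρ (jp i) *ᵥ w - w) :
    EvPow (Nat.card (IsLocalRing.ResidueField (OE E)))
      ((zur TP I hact ⊓ (lamN (T2 T) l 1 L).toAddSubgroup).relIndex (lamN (T2 T) l 1 L).toAddSubgroup *
        Nat.card (MI e jp I l hst) *
        Nat.card (IsLocalRing.ResidueField (OE E)) ^ Module.finrank E (VI e jp I ρ)) := by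
  have h := polD_two X hl hT hr hI hσ hur
  have h1 := inert_even h hact hL
  rwa [card_X1 X hI hst h, finrank_V1 X hI] at h1

end Pool.Agent.Work.MP_787500_nt.EV
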