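import Mathlib
import Pool.Agent.Work.MP_787500_nt.QU.UrQ
import Pool.Agent.Work.MP_787500_nt.EV.Main

/-!
The decomposition groups over the rational numbers at odd primes: the tame structure, and the unramified continuous
cocycles with given value at the Frobenius element.
-/

set_option autoImplicit false
set_option linter.unusedSectionVars false

namespace Pool.Agent.Work.MP_787500_nt.EV

open Matrix NumberField
open Pool.Agent.Work.MP_787500_nt.GP (OE bil Lat stabD)
open Pool.Agent.Work.MP_787500_nt.KR (FSys IsChar ZV zV LocRep IsBig fullC fullD big Opn)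
open Pool.Agent.Work.MP_787500_nt.PA (toE cyc)
open Pool.Agent.Work.MP_787500_nt.LB (TameX fD)
open Pool.Agent.Work.MP_787500_nt.QL (TameF tameF_of)
open Pool.Agent.Work.MP_787500_nt.QU
open Pool.Agent.Work.MP_787500_nt.HP

universe u v

variable {Ω : Type u} [Field Ω] [CharZero Ω] [IsAlgClosed Ω]
  {E : Type*} [NormedField E] [NormedAlgebra ℚ_[2] E] [FiniteDimensional ℚ_[2] E] {n : ℕ}

/-- THE TAME STRUCTURE AND THE UNRAMIFIED COCYCLES. -/
theorem exists_tame_ur (halg : Alg Ω) {l : ℕ} (hl : l.Prime) (h2 : l ≠ 2) {Q : Ideal (𝓞 Ω)}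
    (hQ : Q.IsPrime) (hlQ : (l : 𝓞 Ω) ∈ Q) {N : Subgroup (stb Q)} (hN : N.Normal)
    (hNo : Opn (fullC (stb Q)) N) :
    ∃ (a : stb Q → ℤ_[2]) (σ τ : stb Q),
      TameF (big (fullC (stb Q)) N) (fun d : stb Q => cyQ (d : Ω ≃+* Ω)) a σ τ l
        ((inr Q).subgroupOf (stb Q)) ∧
      ∀ {T : Submodule (OE E) (Fin n → E)} {Sm : Matrix (Fin n) (Fin n) E}
        {A B : stb Q → Matrix (Fin n) (Fin n) E},
        LocRep (big (fullC (stb Q)) N) (fun d : stb Q => cyQ (d : Ω ≃+* Ω)) T Sm A B →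
        ∀ v, (∀ i ∈ (inr Q).subgroupOf (stb Q), A i *ᵥ v = v) →
          ∃ X, ZV (big (fullC (stb Q)) N) A X ∧ (∀ i ∈ (inr Q).subgroupOf (stb Q), X i = 0) ∧
            X σ = v := by
  obtain ⟨K, iF, iN, C, e, hcl, hiso, hcc, I, a, σ, τ, hI, hX⟩ := exists_model halg hl h2 hQ hlQ
  have hc : CompactSpace C := isCompact_iff_compactSpace.1 hcl.isCompact
  obtain ⟨N', hN'⟩ : ∃ N' : Subgroup C, N' = N.comap e.symm.toMonoidHom := ⟨_, rfl⟩
  have hN'n : N'.Normal := by
    rw [hN']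
    infer_instance
  have hNN : ∀ d, e d ∈ N' ↔ d ∈ N := fun d => by
    rw [hN']
    show e.symm (e d) ∈ N ↔ _
    rw [e.symm_apply_apply]
  have hS : ∀ W : Subgroup C, (big (fullC (stb Q)) N).mem (W.comap e.toMonoidHom) ↔
      (big (fullD C) N').mem W := QF.big_iso e hiso hNN
  have hN'o : IsOpen (N' : Set C) := by
    obtain ⟨W, hW, hWN⟩ := hNo
    obtain ⟨-, -, U, hU, hUW⟩ := mem_symm hiso hW
    refine Subgroup.isOpen_mono (hUW.trans ?_) (hU.preimage continuous_subtype_val)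
    rw [hN']
    exact Subgroup.comap_mono hWN
  have hBig : IsBig N' ∅ (big (fullD C) N') := by
    have h3 := KR.isBig_D (N'.map C.subtype) hcl
    have h4 : (N'.map C.subtype).subgroupOf C = N' :=
      Subgroup.comap_map_eq_self_of_injective C.subtype_injective N'
    rwa [h4] at h3
  have hbasis := HP.basis_sub (D := C) (basis_K K)
  have hch : IsChar (big (fullC (stb Q)) N) (fun d : stb Q => cyQ (d : Ω ≃+* Ω)) :=
    RQ.char_big (RQ.char_lfull (stb Q)) N
  have hch' : IsChar (big (fullD C) N') (fun g : C => cyc (g : AbsGal K)) := by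
    refine ⟨PA.isChar_cyc.one, fun g h => PA.isChar_cyc.mul _ _, fun n => ?_,
      fun g => PA.isChar_cyc.odd _⟩
    obtain ⟨W, hW, h1⟩ := hch.cont n
    refine ⟨_, mem_symm hS hW, fun g w hw => ?_⟩
    have h3 := h1 (e.symm g) (e.symm w) hw
    beta_reduce at h3
    rw [← map_mul, ← hcc, ← hcc, e.apply_symm_apply, e.apply_symm_apply] at h3
    exact h3
  have hF := (tameF_of hX (S := big (fullD C) N') (fun W hW => ((hBig W).1 hW).2.1) hch').iso e hS
  have e2 : (fun g : stb Q => cyc ((e g : C) : AbsGal K)) = fun d : stb Q => cyQ (d : Ω ≃+* Ω) :=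
    funext hcc
  have hI' : I.comap (e : stb Q →* C) = (inr Q).subgroupOf (stb Q) := hI
  rw [e2, hI'] at hF
  refine ⟨_, _, _, hF, fun {T Sm A B} hr v hv => ?_⟩
  have hr' := locRep_iso hS hr
  have hA := proRep_of hBig hr'.one hr'.mul hr'.sm
  obtain ⟨lam, hlam⟩ := GP.exists_lam
  have hcov : ∀ g : C, g ∈ I ↔ e.symm g ∈ (inr Q).subgroupOf (stb Q) := fun g => by
    rw [← hI]
    show g ∈ I ↔ e (e.symm g) ∈ I
    rw [e.apply_symm_apply]
  obtain ⟨x, ⟨hx1, hx2⟩, hx3⟩ := LB.ur_all hA.one hA.mul hA.cont hX hbasis hlam (v := v)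
    (fun g hg => hv _ ((hcov g).1 hg))
  refine ⟨fun g => x (e g), ?_, fun i hi => ?_, ?_⟩
  · have h5 := (zv_iff hN'n hN'o hBig hA).1 hx1
    rw [← zv_iso hS] at h5
    have e1 : (fun g : stb Q => (fun d : C => A (e.symm d)) (e g)) = A := funext fun g => by
      show A (e.symm (e g)) = A g
      rw [e.symm_apply_apply]
    rw [e1] at h5
    exact h5
  · refine hx2 _ ?_
    rw [hcov, e.symm_apply_apply]
    exact hi
  · show x (e (e.symm σ)) = v
    rw [e.apply_symm_apply, hx3]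

end Pool.Agent.Work.MP_787500_nt.EV
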