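import Mathlib
import Pool.Agent.Work.MP_787500_nt.EV.TameU
import Pool.Agent.Work.MP_787500_nt.EV.App

/-!
PARITY AT AN INERT PRIME NUMBER for the representation `V × V` of the group over the rational numbers.
-/

set_option autoImplicit false
set_option linter.unusedSectionVars false

namespace Pool.Agent.Work.MP_787500_nt.EV

open Matrix NumberField
open Pool.Agent.Work.MP_787500_nt.GP (IsAct EvPow OE MN actN bil Lat lamN)
open Pool.Agent.Work.MP_787500_nt.KR (FSys IsChar ZV zV LocRep fullC big Opn)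
open Pool.Agent.Work.MP_787500_nt.QL (TameF zur)
open Pool.Agent.Work.MP_787500_nt.QU (urV mem_urV)
open Pool.Agent.Work.MP_787500_nt.QS (Two)
open Pool.Agent.Work.MP_787500_nt.QV
open Pool.Agent.Work.MP_787500_nt.HP

universe u v

/-- the Frobenius element is not in the smaller group -/
theorem out_sigma {P : Type*} [Group P] {TP : FSys P} {χ a : P → ℤ_[2]} {σ τ : P} {q : ℕ}
    {I : Subgroup P} (hT : TameF TP χ a σ τ q I) {G Γ : Type*} [Group G] [Group Γ] {e : G →* Γ}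
    {jp : P →* Γ} (hI : ∀ i ∈ I, ∃ g, e g = jp i) {W : Subgroup P} (hW : TP.mem W)
    (hWe : ∀ d ∈ W, ∃ g, e g = jp d) (hout : ∃ d, ¬∃ g, e g = jp d) : ¬∃ g, e g = jp σ := by
  rintro ⟨g, hg⟩
  obtain ⟨d, hd⟩ := hout
  refine hd ?_
  obtain ⟨i, k, hk, hi⟩ := hT.frob d W hW
  obtain ⟨x, hx⟩ := hI k hk
  obtain ⟨y, hy⟩ := hWe _ hi
  refine ⟨g ^ i * x * y, ?_⟩
  rw [map_mul, map_mul, map_pow, hg, hx, hy, ← map_pow, ← map_mul, ← map_mul, mul_inv_cancel_left]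

variable {Ω : Type u} [Field Ω] [CharZero Ω] [IsAlgClosed Ω]
  {E : Type*} [NormedField E] [NormedAlgebra ℚ_[2] E] [FiniteDimensional ℚ_[2] E] {n : ℕ}
  {G Γ : Type*} [Group G] [Group Γ] {e : G →* Γ} {c : Γ} {κ : G →* G}
  {ρ : G → Matrix (Fin n) (Fin n) E} {l : OE E} {t : E →ₗ[ℚ_[2]] ℚ_[2]}
  {T : Submodule (OE E) (Fin n → E)} {b : Matrix (Fin n) (Fin n) E}

/-- (F) OVER THE RATIONAL NUMBERS. -/
theorem inert_Q [IsLocalRing (OE E)] (halg : Alg Ω) {p : ℕ} (hp : p.Prime) (h2 : p ≠ 2)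
    {Q : Ideal (𝓞 Ω)} (hQ : Q.IsPrime) (hpQ : (p : 𝓞 Ω) ∈ Q) {N : Subgroup (stb Q)}
    (hN : N.Normal) (hNo : Opn (fullC (stb Q)) N) (X : Two e c κ) {jp : stb Q →* Γ}
    (hl : Lat b l t T) (hst : ∀ d, ∀ x ∈ T, ρ d *ᵥ x ∈ T)
    (hr : LocRep (big (fullC (stb Q)) N) (fun d : stb Q => cyQ (d : Ω ≃+* Ω)) (T2 T) (blk 0 b b 0)
      (fun d => rho2 e c κ ρ (jp d)) (fun d => J2 E n * rho2 e c κ ρ (jp d) * J2 E n))
    (hI : ∀ i ∈ (inr Q).subgroupOf (stb Q), ∃ g, e g = jp i)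
    {W : Subgroup (stb Q)} (hW : (big (fullC (stb Q)) N).mem W) (hWe : ∀ d ∈ W, ∃ g, e g = jp d)
    (hout : ∃ d, ¬∃ g, e g = jp d)
    (hact : IsAct (actN l 1 (fun d => rho2 e c κ ρ (jp d)) hr.st)) :
    EvPow (Nat.card (IsLocalRing.ResidueField (OE E)))
      ((zur (big (fullC (stb Q)) N) ((inr Q).subgroupOf (stb Q)) hact ⊓
        (lamN (T2 T) l 1 (urV (big (fullC (stb Q)) N) ((inr Q).subgroupOf (stb Q))
          (fun d => rho2 e c κ ρ (jp d)))).toAddSubgroup).relIndex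
        (lamN (T2 T) l 1 (urV (big (fullC (stb Q)) N) ((inr Q).subgroupOf (stb Q))
          (fun d => rho2 e c κ ρ (jp d)))).toAddSubgroup *
        Nat.card (MI e jp ((inr Q).subgroupOf (stb Q)) l hst) *
        Nat.card (IsLocalRing.ResidueField (OE E)) ^
          Module.finrank E (VI e jp ((inr Q).subgroupOf (stb Q)) ρ)) := by
  obtain ⟨a, σ, τ, hT, hur⟩ := exists_tame_ur (E := E) (n := n + n) halg hp h2 hQ hpQ hN hNo
  exact inert_two X hl hst hT hr hI (out_sigma hT hI hW hWe hout) (fun v hv => hur hr v hv) hact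
    fun _ => mem_urV

end Pool.Agent.Work.MP_787500_nt.EV
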